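import Pool.Agent.H63.T3.Form2

/-!
# Omitting finitely many Euler factors
-/

set_option autoImplicit false

namespace Pool.Agent.H63.T3

open Complex Filter Topology Metric
open Pool.Agent.W189.TP (DS norm_term summ_mono summ_cplx DS_norm_le DS_diff)

variable {n : ℕ}

/-- splitting off finitely many primes -/
theorem DS_split (d : Nat.Primes × ℕ → ℝ) (S : Finset Nat.Primes) {s : ℂ}
    (h : Summable fun x => |d x| * Real.exp (-(s.re * ll x))) :
    DS d ll s = ∑ p ∈ S, ∑' k : ℕ, (d (p, k) : ℂ) * exp (-(s * ll (p, k))) +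
      DS (fun x => if x.1 ∈ S then 0 else d x) ll s := by
  classical
  have h1 : Summable fun x : Nat.Primes × ℕ => (d x : ℂ) * exp (-(s * ll x)) := summ_cplx ll_nonneg le_rfl h
  have h2 : Summable fun x : Nat.Primes × ℕ => (((if x.1 ∈ S then 0 else d x : ℝ)) : ℂ) * exp (-(s * ll x)) := by
    refine Summable.of_norm_bounded h fun x => ?_
    rw [norm_term (fun x : Nat.Primes × ℕ => if x.1 ∈ S then 0 else d x) ll s x]
    split_ifs
    · rw [abs_zero, zero_mul]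
      positivity
    · exact le_rfl
  have h3 : Summable fun x : Nat.Primes × ℕ => (((if x.1 ∈ S then d x else 0 : ℝ)) : ℂ) * exp (-(s * ll x)) := by
    refine (h1.sub h2).congr fun x => ?_
    split_ifs <;> simp
  unfold DS
  have e1 : ∀ x : Nat.Primes × ℕ, (d x : ℂ) * exp (-(s * ll x)) =
      (((if x.1 ∈ S then d x else 0 : ℝ)) : ℂ) * exp (-(s * ll x)) +
      (((if x.1 ∈ S then 0 else d x : ℝ)) : ℂ) * exp (-(s * ll x)) := by
    intro x
    split_ifs <;> simp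
  simp_rw [e1]
  rw [h3.tsum_add h2]
  congr 1
  rw [h3.tsum_prod]
  rw [tsum_eq_sum (s := S)]
  · refine Finset.sum_congr rfl fun p hp => tsum_congr fun k => ?_
    simp [hp]
  · intro p hp
    simp [hp]

/-- the logarithm of a finite product -/
theorem exp_neg_log_prod {ι : Type*} (F : Finset ι) (u : ι → ℂ) (hu : ∀ i ∈ F, ‖u i‖ < 1) :
    exp (∑' k : ℕ, ((1 : ℂ) / ((k : ℂ) + 1)) * ∑ i ∈ F, u i ^ (k + 1)) * ∏ i ∈ F, (1 - u i) = 1 := by
  have h1 : ∀ i ∈ F, HasSum (fun k : ℕ => ((1 : ℂ) / ((k : ℂ) + 1)) * u i ^ (k + 1)) (-log (1 - u i)) := by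
    intro i hi
    have h2 := hasSum_taylorSeries_neg_log (hu i hi)
    have h3 := (hasSum_nat_add_iff' 1).2 h2
    simp only [Finset.range_one, Finset.sum_singleton, pow_zero, Nat.cast_zero, div_zero, sub_zero] at h3
    refine h3.congr_fun fun k => ?_
    push_cast
    ring
  have h2 := hasSum_sum h1
  have h3 : (fun k : ℕ => ((1 : ℂ) / ((k : ℂ) + 1)) * ∑ i ∈ F, u i ^ (k + 1)) =
      fun k : ℕ => ∑ i ∈ F, ((1 : ℂ) / ((k : ℂ) + 1)) * u i ^ (k + 1) := by
    funext k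
    rw [Finset.mul_sum]
  rw [h3, h2.tsum_eq, exp_sum, ← Finset.prod_mul_distrib]
  refine Finset.prod_eq_one fun i hi => ?_
  have h4 : 1 - u i ≠ 0 := by
    intro h5
    have h6 := hu i hi
    rw [← sub_eq_zero.1 h5] at h6
    simp at h6
  rw [exp_neg, exp_log h4, inv_mul_cancel₀ h4]

namespace SphericalForm

variable {α : Nat.Primes → Fin n → ℂ} {μ : Fin n → ℂ}

/-- the products `α_i conj α_j` -/
noncomputable def ba (α : Nat.Primes → Fin n → ℂ) (p : Nat.Primes) (x : Fin n × Fin n) : ℂ :=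
  α p x.1 * (starRingEnd ℂ) (α p x.2)

theorem ba_norm (h : SphericalForm α μ) (p : Nat.Primes) (x : Fin n × Fin n) : ‖ba α p x‖ ≤ ((p : ℕ) : ℝ) := by
  unfold ba
  rw [norm_mul, RCLike.norm_conj]
  have h1 := h.bound p x.1
  have h2 := h.bound p x.2
  nlinarith [sq_nonneg (‖α p x.1‖ - ‖α p x.2‖)]

theorem sum_ba (p : Nat.Primes) (k : ℕ) :
    ((‖∑ i, α p i ^ k‖ ^ 2 : ℝ) : ℂ) = ∑ x : Fin n × Fin n, ba α p x ^ k := by
  rw [← normSq_eq_norm_sq, normSq_eq_conj_mul_self, mul_comm, map_sum, Fintype.sum_prod_type, Finset.sum_mul_sum]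
  refine Finset.sum_congr rfl fun i _ => Finset.sum_congr rfl fun j _ => ?_
  unfold ba
  rw [map_pow, ← mul_pow]

/-- the pair with the product `1` -/
theorem exists_xp (h : SphericalForm α μ) (hn : 1 ≤ n) (p : Nat.Primes) : ∃ x : Fin n × Fin n, ba α p x = 1 := by
  obtain ⟨h0, h1⟩ := h.unitary p
  have h2 : ((starRingEnd ℂ) (α p ⟨0, hn⟩))⁻¹ ∈ Multiset.map (α p) Finset.univ.val := by
    rw [← h1]
    exact Multiset.mem_map.2 ⟨⟨0, hn⟩, Finset.mem_univ_val _, rfl⟩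
  obtain ⟨i, _, hi⟩ := Multiset.mem_map.1 h2
  refine ⟨(i, ⟨0, hn⟩), ?_⟩
  unfold ba
  simp only
  rw [hi]
  exact inv_mul_cancel₀ (by simpa using h0 ⟨0, hn⟩)

open scoped Classical in
/-- the pairs except for one with the product `1` -/
noncomputable def rs' (α : Nat.Primes → Fin n → ℂ) (p : Nat.Primes) : Finset (Fin n × Fin n) :=
  if h : ∃ x : Fin n × Fin n, ba α p x = 1 then Finset.univ.erase h.choose else Finset.univ

/-- `(1 - p^{-s})⁻¹ ∏_{i,j} (1 - α_i conj α_j p^{-s})` -/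
noncomputable def poly (α : Nat.Primes → Fin n → ℂ) (p : Nat.Primes) (s : ℂ) : ℂ :=
  ∏ x ∈ rs' α p, (1 - ba α p x * ((p : ℕ) : ℂ) ^ (-s))

theorem card_rs (α : Nat.Primes → Fin n → ℂ) (p : Nat.Primes) : (rs' α p).card ≤ n ^ 2 := by
  have h1 := Finset.card_le_univ (rs' α p)
  rw [Fintype.card_prod, Fintype.card_fin] at h1
  rw [sq]
  exact h1

theorem poly_mul (h : SphericalForm α μ) (hn : 1 ≤ n) (p : Nat.Primes) (s : ℂ) :
    (1 - ((p : ℕ) : ℂ) ^ (-s)) * poly α p s = ∏ x : Fin n × Fin n, (1 - ba α p x * ((p : ℕ) : ℂ) ^ (-s)) := by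
  classical
  have hx := h.exists_xp hn p
  unfold poly rs'
  rw [dif_pos hx, ← Finset.mul_prod_erase Finset.univ _ (Finset.mem_univ hx.choose), hx.choose_spec, one_mul]

theorem poly_diff (α : Nat.Primes → Fin n → ℂ) (p : Nat.Primes) : Differentiable ℂ (poly α p) := by
  unfold poly
  refine Differentiable.fun_finsetProd fun x _ => ?_
  have hp : ((p : ℕ) : ℂ) ≠ 0 := by exact_mod_cast p.2.ne_zero
  refine (differentiable_const _).sub ((differentiable_const _).mul ?_)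
  intro s
  exact (differentiableAt_id.neg).const_cpow (Or.inl hp)

theorem norm_pr (p : Nat.Primes) (s : ℂ) : ‖((p : ℕ) : ℂ) ^ (-s)‖ = ((p : ℕ) : ℝ) ^ (-s.re) := by
  rw [Complex.norm_natCast_cpow_of_pos p.2.pos, Complex.neg_re]

/-- the crude bound -/
theorem poly_le (h : SphericalForm α μ) (p : Nat.Primes) {s : ℂ} (hs : -1 ≤ s.re) :
    ‖poly α p s‖ ≤ (((p : ℕ) : ℝ) ^ 3) ^ (n ^ 2) := by
  have hp := pr_two_le p
  unfold poly
  rw [norm_prod]
  have h1 : ∀ x ∈ rs' α p, ‖1 - ba α p x * ((p : ℕ) : ℂ) ^ (-s)‖ ≤ ((p : ℕ) : ℝ) ^ 3 := by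
    intro x _
    refine (norm_sub_le _ _).trans ?_
    rw [norm_one, norm_mul, norm_pr]
    have h2 := h.ba_norm p x
    have h3 : ((p : ℕ) : ℝ) ^ (-s.re) ≤ ((p : ℕ) : ℝ) := by
      calc ((p : ℕ) : ℝ) ^ (-s.re) ≤ ((p : ℕ) : ℝ) ^ (1 : ℝ) :=
            Real.rpow_le_rpow_of_exponent_le (by linarith) (by linarith)
        _ = _ := Real.rpow_one _
    have h4 : ‖ba α p x‖ * ((p : ℕ) : ℝ) ^ (-s.re) ≤ ((p : ℕ) : ℝ) * ((p : ℕ) : ℝ) :=
      mul_le_mul h2 h3 (by positivity) (by linarith)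
    nlinarith
  refine (Finset.prod_le_prod (fun x _ => norm_nonneg _) h1).trans ?_
  rw [Finset.prod_const]
  refine pow_le_pow_right₀ ?_ (card_rs α p)
  exact one_le_pow₀ (by linarith)

/-- the bound at a tempered prime -/
theorem poly_le_tempered (p : Nat.Primes) (hp : ∀ i, ‖α p i‖ = 1) {s : ℂ} {σ : ℝ} (hs : σ ≤ s.re) :
    ‖poly α p s‖ ≤ Real.exp ((n : ℝ) ^ 2 * ((p : ℕ) : ℝ) ^ (-σ)) := by
  have hp1 := pr_one_lt p
  unfold poly
  rw [norm_prod]
  have h1 : ∀ x ∈ rs' α p, ‖1 - ba α p x * ((p : ℕ) : ℂ) ^ (-s)‖ ≤ Real.exp (((p : ℕ) : ℝ) ^ (-σ)) := by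
    intro x _
    refine (norm_sub_le _ _).trans ?_
    rw [norm_one, norm_mul, norm_pr]
    have h2 : ‖ba α p x‖ = 1 := by
      unfold ba
      rw [norm_mul, RCLike.norm_conj, hp, hp, one_mul]
    have h3 : ((p : ℕ) : ℝ) ^ (-s.re) ≤ ((p : ℕ) : ℝ) ^ (-σ) :=
      Real.rpow_le_rpow_of_exponent_le hp1.le (by linarith)
    rw [h2, one_mul]
    have h4 := Real.add_one_le_exp (((p : ℕ) : ℝ) ^ (-σ))
    linarith
  refine (Finset.prod_le_prod (fun x _ => norm_nonneg _) h1).trans ?_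
  rw [Finset.prod_const, ← Real.exp_nat_mul]
  refine Real.exp_le_exp.2 ?_
  have h2 : ((rs' α p).card : ℝ) ≤ (n : ℝ) ^ 2 := by exact_mod_cast card_rs α p
  gcongr

/-- the coefficients of `log (L_S(s, φ × φ~) / ζ_S(s))` -/
noncomputable def bS (α : Nat.Primes → Fin n → ℂ) (S : Finset Nat.Primes) (x : Nat.Primes × ℕ) : ℝ :=
  if x.1 ∈ S then 0 else (‖∑ i, α x.1 i ^ (x.2 + 1)‖ ^ 2 - 1) / ((x.2 : ℝ) + 1)

theorem summ_one {σ : ℝ} (hσ : 1 < σ) :
    Summable fun x : Nat.Primes × ℕ => |1 / ((x.2 : ℝ) + 1)| * Real.exp (-(σ * ll x)) := by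
  refine Summable.of_nonneg_of_le (fun x => by positivity) (fun x => ?_) (summable_pk hσ)
  rw [abs_of_nonneg (by positivity)]
  have h1 : 1 / ((x.2 : ℝ) + 1) ≤ 1 := by
    rw [div_le_one (by positivity)]
    have : (0 : ℝ) ≤ x.2 := Nat.cast_nonneg _
    linarith
  calc 1 / ((x.2 : ℝ) + 1) * Real.exp (-(σ * ll x)) ≤ 1 * Real.exp (-(σ * ll x)) := by gcongr
    _ = _ := one_mul _

theorem exp_zeta {s : ℂ} (hs : 1 < s.re) :
    exp (DS (fun x : Nat.Primes × ℕ => 1 / ((x.2 : ℝ) + 1)) ll s) = riemannZeta s := by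
  have hz : ∀ p : Nat.Primes, ‖((p : ℕ) : ℂ) ^ (-s)‖ < 1 := by
    intro p
    rw [norm_pr]
    exact Pool.Agent.W189.TP.pr_rpow_lt_one p (by linarith)
  have hsum : Summable fun x : Nat.Primes × ℕ => ((1 / ((x.2 : ℝ) + 1) : ℝ) : ℂ) * exp (-(s * ll x)) :=
    summ_cplx ll_nonneg le_rfl (summ_one hs)
  rw [← riemannZeta_eulerProduct_exp_log hs]
  unfold DS
  rw [hsum.tsum_prod]
  congr 1
  refine tsum_congr fun p => ?_
  have h1 := Complex.hasSum_taylorSeries_neg_log (hz p)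
  have h2 := (hasSum_nat_add_iff' 1).2 h1
  simp only [Finset.range_one, Finset.sum_singleton, pow_zero, Nat.cast_zero, div_zero, sub_zero] at h2
  rw [← h2.tsum_eq]
  refine tsum_congr fun k => ?_
  rw [exp_ll]
  push_cast
  ring

/-- **The identity.** -/
theorem exp_bS {Ξ : ℂ → ℂ} (hC : TP.Compl Ξ) (h : SphericalForm α μ) (hn : 2 ≤ n) (hΞ : ∀ s : ℂ, 1 < s.re →
    Ξ s = s * (s - 1) * (∏ i, ∏ j, Gammaℝ (s + (μ i + (starRingEnd ℂ) (μ j)))) * exp (logRS α s))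
    (S : Finset Nat.Primes) {s : ℂ} (hs : 1 < s.re) :
    exp (DS (bS α S) ll s) = FF Ξ μ s * ∏ p ∈ S, poly α p s := by
  classical
  have hc := h.summ hs
  have h1 := summ_one hs
  have hpr : ∀ p : Nat.Primes, ((p : ℕ) : ℝ) ^ (-s.re) < 1 := fun p => Pool.Agent.W189.TP.pr_rpow_lt_one p (by linarith)
  have hpr1 : ∀ p : Nat.Primes, 1 - ((p : ℕ) : ℂ) ^ (-s) ≠ 0 := by
    intro p h'
    have h2 := hpr p
    rw [← norm_pr, ← sub_eq_zero.1 h'] at h2
    simp at h2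
  have hu : ∀ (p : Nat.Primes) (x : Fin n × Fin n), ‖ba α p x * ((p : ℕ) : ℂ) ^ (-s)‖ < 1 := by
    intro p x
    rw [norm_mul, norm_pr]
    have h2 := h.ba_norm p x
    have h3 := pr_one_lt p
    calc ‖ba α p x‖ * ((p : ℕ) : ℝ) ^ (-s.re) ≤ ((p : ℕ) : ℝ) ^ (1 : ℝ) * ((p : ℕ) : ℝ) ^ (-s.re) := by
          rw [Real.rpow_one]
          gcongr
      _ = ((p : ℕ) : ℝ) ^ (1 - s.re) := by rw [← Real.rpow_add (by linarith)]; rfl
      _ < 1 := Real.rpow_lt_one_of_one_lt_of_neg h3 (by linarith)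
  have e1 := DS_split (cRS α) S hc
  have e2 := DS_split (fun x : Nat.Primes × ℕ => 1 / ((x.2 : ℝ) + 1)) S h1
  -- the difference
  have e3 : DS (fun x => if x.1 ∈ S then 0 else cRS α x) ll s -
      DS (fun x : Nat.Primes × ℕ => if x.1 ∈ S then 0 else 1 / ((x.2 : ℝ) + 1)) ll s = DS (bS α S) ll s := by
    have s1 : Summable fun x : Nat.Primes × ℕ => (((if x.1 ∈ S then 0 else cRS α x : ℝ)) : ℂ) * exp (-(s * ll x)) := by
      refine Summable.of_norm_bounded hc fun x => ?_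
      rw [norm_term (fun x : Nat.Primes × ℕ => if x.1 ∈ S then 0 else cRS α x) ll s x]
      split_ifs
      · rw [abs_zero, zero_mul]
        positivity
      · exact le_rfl
    have s2 : Summable fun x : Nat.Primes × ℕ => (((if x.1 ∈ S then 0 else 1 / ((x.2 : ℝ) + 1) : ℝ)) : ℂ) *
        exp (-(s * ll x)) := by
      refine Summable.of_norm_bounded h1 fun x => ?_
      rw [norm_term (fun x : Nat.Primes × ℕ => if x.1 ∈ S then 0 else 1 / ((x.2 : ℝ) + 1)) ll s x]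
      split_ifs
      · rw [abs_zero, zero_mul]
        positivity
      · exact le_rfl
    unfold DS
    rw [← s1.tsum_sub s2]
    refine tsum_congr fun x => ?_
    rw [← sub_mul, ← ofReal_sub]
    congr 2
    unfold bS cRS
    split_ifs
    · ring
    · ring
  have e4 : DS (bS α S) ll s = DS (cRS α) ll s - DS (fun x : Nat.Primes × ℕ => 1 / ((x.2 : ℝ) + 1)) ll s -
      ∑ p ∈ S, ∑' k : ℕ, (cRS α (p, k) : ℂ) * exp (-(s * ll (p, k))) +
      ∑ p ∈ S, ∑' k : ℕ, ((1 / ((((p, k) : Nat.Primes × ℕ).2 : ℝ) + 1) : ℝ) : ℂ) * exp (-(s * ll (p, k))) := by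
    rw [← e3, e1, e2]
    ring
  rw [e4, exp_add, exp_sub, exp_sub, exp_zeta hs, ← logRS_eq, exp_sum, exp_sum]
  have hzeta : riemannZeta s ≠ 0 := riemannZeta_ne_zero_of_one_le_re hs.le
  rw [← FF_eq hC h hn hΞ hs, mul_div_assoc, div_self hzeta, mul_one, div_mul_eq_mul_div, mul_div_assoc,
    ← Finset.prod_div_distrib]
  congr 1
  refine Finset.prod_congr rfl fun p _ => ?_
  -- the local factors
  have f1 : exp (∑' k : ℕ, (cRS α (p, k) : ℂ) * exp (-(s * ll (p, k)))) *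
      ∏ x : Fin n × Fin n, (1 - ba α p x * ((p : ℕ) : ℂ) ^ (-s)) = 1 := by
    refine Eq.trans ?_ (exp_neg_log_prod Finset.univ (fun x => ba α p x * ((p : ℕ) : ℂ) ^ (-s)) fun x _ => hu p x)
    congr 2
    refine tsum_congr fun k => ?_
    rw [exp_ll]
    unfold cRS
    simp only
    push_cast
    have := sum_ba (α := α) p (k + 1)
    push_cast at this
    rw [this]
    simp_rw [mul_pow]
    rw [← Finset.sum_mul]
    ring
  have f2 : exp (∑' k : ℕ, ((1 / ((((p, k) : Nat.Primes × ℕ).2 : ℝ) + 1) : ℝ) : ℂ) * exp (-(s * ll (p, k)))) *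
      (1 - ((p : ℕ) : ℂ) ^ (-s)) = 1 := by
    have h2 := exp_neg_log_prod (Finset.univ : Finset (Fin 1)) (fun _ => ((p : ℕ) : ℂ) ^ (-s)) fun _ _ => by
      rw [norm_pr]
      exact hpr p
    simp only [Finset.univ_unique, Finset.sum_singleton, Finset.prod_singleton] at h2
    refine Eq.trans ?_ h2
    congr 2
    refine tsum_congr fun k => ?_
    rw [exp_ll]
    push_cast
    rfl
  have g2 := eq_inv_of_mul_eq_one_left f2
  have g1 := eq_inv_of_mul_eq_one_left f1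
  rw [g1, g2, ← h.poly_mul (by omega) p s]
  have := hpr1 p
  field_simp

end SphericalForm

end Pool.Agent.H63.T3
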