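import Pool.Agent.H63.TP.Gam

/-!
# A lower bound for the real part of the logarithmic derivative of `Γ_ℝ`
-/

set_option autoImplicit false

namespace Pool.Agent.H63.T3

open Complex Filter Topology Set

theorem logDeriv_shift' {z : ℂ} (hz : -2 < z.re) (hz0 : z ≠ 0) :
    logDeriv Gammaℝ z = logDeriv Gammaℝ (z + 2) - 1 / z := by
  have hre : 0 < (z + 2).re := by simp; linarith
  have e1 : Gammaℝ =ᶠ[𝓝 z] fun w => Gammaℝ (w + 2) * (2 * Real.pi / w) := by
    filter_upwards [isOpen_ne.mem_nhds hz0] with w hw0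
    rw [Gammaℝ_add_two hw0]
    have : (Real.pi : ℂ) ≠ 0 := by exact_mod_cast Real.pi_pos.ne'
    have hw : w ≠ 0 := hw0
    field_simp
  have hd1 : HasDerivAt (fun w : ℂ => Gammaℝ (w + 2)) (deriv Gammaℝ (z + 2)) z := by
    have ha : DifferentiableAt ℂ Gammaℝ (z + 2) := TP.gammaR_diffAt hre
    have hb : HasDerivAt (fun w : ℂ => w + 2) 1 z := (hasDerivAt_id z).add_const _
    simpa [Function.comp_def] using HasDerivAt.comp z ha.hasDerivAt hb
  have hd2 : HasDerivAt (fun w : ℂ => 2 * (Real.pi : ℂ) / w) (-(2 * Real.pi) / z ^ 2) z := by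
    have := (hasDerivAt_inv hz0).const_mul (2 * (Real.pi : ℂ))
    refine (this.congr_deriv ?_).congr_of_eventuallyEq ?_
    · field_simp
    · exact Eventually.of_forall fun w => by simp [div_eq_mul_inv]
  have e3 : deriv (fun w : ℂ => Gammaℝ (w + 2) * (2 * Real.pi / w)) z = _ := (hd1.mul hd2).deriv
  rw [(logDeriv_congr_nhds e1).eq_of_nhds, logDeriv_apply, e3, logDeriv_apply]
  have h4 : Gammaℝ (z + 2) ≠ 0 := Gammaℝ_ne_zero_of_re_pos hre
  have h5 : (Real.pi : ℂ) ≠ 0 := by exact_mod_cast Real.pi_pos.ne'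
  field_simp
  ring

/-- the lower bound -/
theorem gam_low : ∃ C : ℝ, 0 ≤ C ∧ ∀ z : ℂ, 3 / 2 ≤ z.re → z.re ≤ 7 / 2 →
    1 / 2 * Real.log (1 + |z.im|) - C ≤ (logDeriv Gammaℝ z).re := by
  obtain ⟨C1, hC1, h1⟩ := H370.DL.logDeriv_Gammaℝ_bound
  have hcomp : IsCompact (Icc (3 / 2 : ℝ) (7 / 2) ×ℂ Icc (-1 : ℝ) 1) := isCompact_Icc.reProdIm isCompact_Icc
  have hcont : ContinuousOn (logDeriv Gammaℝ) (Icc (3 / 2 : ℝ) (7 / 2) ×ℂ Icc (-1 : ℝ) 1) :=
    TP.logDeriv_contOn.mono fun z hz => by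
      rw [mem_reProdIm] at hz
      have := hz.1.1
      change 0 < z.re
      linarith
  obtain ⟨C2, h2⟩ := hcomp.exists_bound_of_continuousOn hcont
  refine ⟨C1 + |C2| + 1, by positivity, fun z hz hz4 => ?_⟩
  have hl2 : Real.log 2 < 1 := by
    have := Real.log_two_lt_d9
    linarith
  rcases le_total 1 |z.im| with h | h
  · have h3 := h1 z (by linarith) (by linarith) h
    have h4 := (abs_re_le_norm _).trans h3
    rw [sub_re] at h4
    have e2 : ((1 : ℂ) / 2 * (Real.log |z.im| : ℂ)).re = 1 / 2 * Real.log |z.im| := by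
      rw [show ((1 : ℂ) / 2 * (Real.log |z.im| : ℂ)) = ((1 / 2 * Real.log |z.im| : ℝ) : ℂ) by
        push_cast; ring, ofReal_re]
    rw [e2, abs_le] at h4
    have h5 : Real.log (1 + |z.im|) ≤ Real.log 2 + Real.log |z.im| := by
      rw [← Real.log_mul (by norm_num) (by linarith)]
      exact Real.log_le_log (by linarith) (by linarith)
    have h6 : 0 ≤ |C2| := abs_nonneg _
    linarith [h4.1]
  · have h3 := h2 z (by
      rw [mem_reProdIm]
      rw [abs_le] at h
      exact ⟨⟨hz, hz4⟩, ⟨h.1, h.2⟩⟩)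
    have h4 := (abs_re_le_norm (logDeriv Gammaℝ z)).trans h3
    have h5 : Real.log (1 + |z.im|) ≤ Real.log 2 :=
      Real.log_le_log (by have := abs_nonneg z.im; linarith) (by linarith)
    have h6 := le_abs_self C2
    have h7 := neg_abs_le (logDeriv Gammaℝ z).re
    linarith

theorem gam_low' : ∃ C : ℝ, 0 ≤ C ∧ ∀ (δ : ℝ) (z : ℂ), 0 < δ → δ ≤ ‖z‖ → -(1 / 2) ≤ z.re → z.re ≤ 3 / 2 →
    1 / 2 * Real.log (1 + |z.im|) - C - 1 / δ ≤ (logDeriv Gammaℝ z).re := by
  obtain ⟨C, hC, h⟩ := gam_low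
  refine ⟨C, hC, fun δ z hδ hz h1 h2 => ?_⟩
  have hz0 : z ≠ 0 := by
    rintro rfl
    rw [norm_zero] at hz
    linarith
  have him : (z + 2).im = z.im := by simp
  have hre : (z + 2).re = z.re + 2 := by simp
  have h3 := h (z + 2) (by rw [hre]; linarith) (by rw [hre]; linarith)
  rw [him] at h3
  rw [logDeriv_shift' (by linarith) hz0, sub_re]
  have h4 : (1 / z).re ≤ 1 / δ := by
    refine (re_le_norm _).trans ?_
    rw [norm_div, norm_one]
    exact one_div_le_one_div_of_le hδ hz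
  linarith

/-- the logarithmic derivative of `1 / Γ_ℝ` -/
theorem logDeriv_inv_Gammaℝ (a s : ℂ) (h : (Gammaℝ (s + a))⁻¹ ≠ 0) :
    logDeriv (fun s : ℂ => (Gammaℝ (s + a))⁻¹) s = - logDeriv Gammaℝ (s + a) := by
  set k : ℂ → ℂ := fun s => (Gammaℝ s)⁻¹ with hk
  have hkd : Differentiable ℂ k := differentiable_Gammaℝ_inv
  have e1 : logDeriv (fun s : ℂ => (Gammaℝ (s + a))⁻¹) s = logDeriv k (s + a) := by
    have h2 : HasDerivAt (fun v : ℂ => v + a) 1 s := (hasDerivAt_id s).add_const a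
    have h1 := logDeriv_comp (f := k) (g := fun v : ℂ => v + a) (x := s) (hkd _) h2.differentiableAt
    rw [h2.deriv, mul_one] at h1
    exact h1
  have e2 : Gammaℝ = fun s => (k s)⁻¹ := by
    funext s
    simp [hk]
  rw [e1]
  have h3 : logDeriv Gammaℝ (s + a) = - logDeriv k (s + a) := by
    have h4 : HasDerivAt (fun s => (k s)⁻¹) _ (s + a) := (hkd (s + a)).hasDerivAt.inv h
    rw [← e2] at h4
    rw [logDeriv_apply, logDeriv_apply, h4.deriv]
    have h5 : Gammaℝ (s + a) = (k (s + a))⁻¹ := by simp [hk]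
    rw [h5]
    have h6 : k (s + a) ≠ 0 := h
    field_simp
  rw [h3, neg_neg]

end Pool.Agent.H63.T3
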