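import Pool.Graph.R_seed8.H401R2.EM

/-!
# `ζ` has no zeros in a disc
-/

set_option autoImplicit false

namespace Pool.Agent.H63.T3

open Complex Filter Topology Metric

theorem emE_one (s : ℂ) (hs1 : s ≠ 1) :
    Pool.Agent.H401R2.emE 1 s = (s + 2) * (s + 3) / (12 * (s - 1)) := by
  unfold Pool.Agent.H401R2.emE ZU.DN
  have : s - 1 ≠ 0 := sub_ne_zero.2 hs1
  simp
  field_simp
  ring

theorem zeta_ne_strip {s : ℂ} (h0 : 0 < s.re) (h1 : s.re < 1) (h : (s.re - 4) ^ 2 + s.im ^ 2 ≤ (17 / 4) ^ 2) :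
    riemannZeta s ≠ 0 := by
  intro hz
  have hs1 : s ≠ 1 := by
    rintro rfl
    simp at h1
  have hs10 : 0 < ‖s - 1‖ := norm_pos_iff.2 (sub_ne_zero.2 hs1)
  have e1 := Pool.Agent.H401R2.zeta_em 2 le_rfl s h0 hs1
  have e2 := Pool.Agent.H401R2.norm_step_le 1 le_rfl s h0.le hs1
  rw [hz, zero_sub, norm_neg] at e1
  set P := ‖s * (s + 1) * (s + 2) * (s + 3)‖ with hP
  have hP0 : 0 ≤ P := norm_nonneg _
  have h2 : ((2 : ℕ) : ℝ) ^ (-s.re) ≤ 1 := by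
    refine Real.rpow_le_one_of_one_le_of_nonpos (by norm_num) (by linarith)
  have e1' : ‖Pool.Agent.H401R2.emE 2 s‖ ≤ P / 720 * (1 / 3) := by
    refine e1.trans ?_
    norm_num at h2 ⊢
    nlinarith
  have e2' : ‖Pool.Agent.H401R2.emE 2 s - Pool.Agent.H401R2.emE 1 s‖ ≤ P / 720 := by
    refine e2.trans (le_of_eq ?_)
    norm_num
  have e3 : ‖Pool.Agent.H401R2.emE 1 s‖ ≤ P / 540 := by
    have h3 : Pool.Agent.H401R2.emE 1 s = Pool.Agent.H401R2.emE 2 s -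
        (Pool.Agent.H401R2.emE 2 s - Pool.Agent.H401R2.emE 1 s) := by ring
    rw [h3]
    refine (norm_sub_le _ _).trans ?_
    linarith
  rw [emE_one s hs1, norm_div, norm_mul, norm_mul, hP, norm_mul, norm_mul, norm_mul] at e3
  rw [show ‖(12 : ℂ)‖ = 12 by simp] at e3
  have h23 : 0 < ‖s + 2‖ * ‖s + 3‖ := by
    refine mul_pos (norm_pos_iff.2 ?_) (norm_pos_iff.2 ?_)
    · intro h'
      have := congrArg re h'
      simp at this
      linarith
    · intro h'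
      have := congrArg re h'
      simp at this
      linarith
  rw [div_le_div_iff₀ (by positivity) (by norm_num)] at e3
  have h45 : 45 ≤ ‖s‖ * ‖s + 1‖ * ‖s - 1‖ := by
    by_contra hcon
    push Not at hcon
    have : ‖s‖ * ‖s + 1‖ * ‖s + 2‖ * ‖s + 3‖ * (12 * ‖s - 1‖) =
        12 * (‖s‖ * ‖s + 1‖ * ‖s - 1‖) * (‖s + 2‖ * ‖s + 3‖) := by ring
    rw [this] at e3
    nlinarith
  have n1 : ‖s‖ ^ 2 = s.re ^ 2 + s.im ^ 2 := by rw [Complex.sq_norm, normSq_apply]; ring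
  have n2 : ‖s + 1‖ ^ 2 = (s.re + 1) ^ 2 + s.im ^ 2 := by rw [Complex.sq_norm, normSq_apply]; simp; ring
  have n3 : ‖s - 1‖ ^ 2 = (s.re - 1) ^ 2 + s.im ^ 2 := by rw [Complex.sq_norm, normSq_apply]; simp; ring
  have m1 : ‖s‖ ^ 2 ≤ 16 * 2 / 3 := by rw [n1]; nlinarith
  have m2 : ‖s + 1‖ ^ 2 ≤ 27 / 2 := by rw [n2]; nlinarith
  have m3 : ‖s - 1‖ ^ 2 ≤ 10 := by rw [n3]; nlinarith
  have h6 : (‖s‖ * ‖s + 1‖ * ‖s - 1‖) ^ 2 ≤ 16 * 2 / 3 * (27 / 2) * 10 := by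
    calc (‖s‖ * ‖s + 1‖ * ‖s - 1‖) ^ 2 = ‖s‖ ^ 2 * ‖s + 1‖ ^ 2 * ‖s - 1‖ ^ 2 := by ring
      _ ≤ _ := by gcongr
  nlinarith

theorem zeta_ne_left {s : ℂ} (h0 : s.re ≤ 0) (h1 : -2 < s.re) (hs : s ≠ 0) : riemannZeta s ≠ 0 := by
  have hG : Gammaℝ s ≠ 0 := by
    rw [Ne, Gammaℝ_eq_zero_iff]
    rintro ⟨n, hn⟩
    have h2 := congrArg re hn
    simp at h2
    have h3 : n < 1 := by
      by_contra h4
      push Not at h4
      have : (1 : ℝ) ≤ n := by exact_mod_cast h4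
      linarith
    have h4 : n = 0 := by omega
    apply hs
    rw [hn, h4]
    simp
  rw [riemannZeta_def_of_ne_zero hs, ← completedRiemannZeta_one_sub]
  have h2 : 1 - s ≠ 0 := by
    intro h3
    have := congrArg re h3
    simp at this
    linarith
  have h3 : riemannZeta (1 - s) ≠ 0 := riemannZeta_ne_zero_of_one_le_re (by simp; linarith)
  rw [riemannZeta_def_of_ne_zero h2] at h3
  exact div_ne_zero (fun h4 => h3 (by rw [h4, zero_div])) hG

theorem z1_ne {s : ℂ} (h : s ∈ closedBall (4 : ℂ) (17 / 4)) : riemannZeta₁ s ≠ 0 := by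
  rw [mem_closedBall, dist_eq_norm] at h
  have h' : (s.re - 4) ^ 2 + s.im ^ 2 ≤ (17 / 4) ^ 2 := by
    have h1 : ‖s - 4‖ ^ 2 = (s.re - 4) ^ 2 + s.im ^ 2 := by
      rw [Complex.sq_norm, normSq_apply]; simp; ring
    rw [← h1]
    exact pow_le_pow_left₀ (norm_nonneg _) h 2
  by_cases hs1 : s = 1
  · rw [hs1, riemannZeta₁_one]
    exact one_ne_zero
  have key : riemannZeta s ≠ 0 := by
    rcases lt_or_ge s.re 1 with h1 | h1
    · rcases lt_or_ge 0 s.re with h0 | h0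
      · exact zeta_ne_strip h0 h1 h'
      · by_cases hs0 : s = 0
        · rw [hs0, riemannZeta_zero]
          norm_num
        · refine zeta_ne_left h0 ?_ hs0
          nlinarith [sq_nonneg s.im, sq_nonneg (s.re + 2)]
    · exact riemannZeta_ne_zero_of_one_le_re h1
  intro h1
  rw [riemannZeta_eq_inv_sub_mul hs1, h1, mul_zero] at key
  exact key rfl

theorem z1_low : ∃ c : ℝ, 0 < c ∧ ∀ s ∈ closedBall (4 : ℂ) (17 / 4), c ≤ ‖riemannZeta₁ s‖ := by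
  obtain ⟨x, hx, hmin⟩ := (isCompact_closedBall (4 : ℂ) (17 / 4)).exists_isMinOn
    ⟨4, mem_closedBall_self (by norm_num)⟩ (differentiable_riemannZeta₁.continuous.norm.continuousOn)
  exact ⟨‖riemannZeta₁ x‖, norm_pos_iff.2 (z1_ne hx), fun s hs => hmin hs⟩

end Pool.Agent.H63.T3
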