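import Pool.Agent.H63.TP.Defs

/-!
# Spherical cusp forms on `PGL_n`: what is used of them
-/

set_option autoImplicit false

namespace Pool.Agent.H63.T3

open Complex

variable {n : ℕ}

/-- the (analytic) conductor `C_φ = ∏_i (1 + |μ_i|)` of the form with the Langlands parameters `μ` at infinity -/
noncomputable def cond (μ : Fin n → ℂ) : ℝ := ∏ i, (1 + ‖μ i‖)

/-- `log L(s, φ × φ~) = ∑_p ∑_{k ≥ 1} |∑_i α_{i,p}^k|² / (k p^{ks})` -/
noncomputable def logRS (α : Nat.Primes → Fin n → ℂ) (s : ℂ) : ℂ :=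
  ∑' x : Nat.Primes × ℕ, ((‖∑ i, α x.1 i ^ (x.2 + 1)‖ ^ 2 / ((x.2 : ℝ) + 1) : ℝ) : ℂ) *
    (((x.1 : ℕ) : ℂ) ^ (-s)) ^ (x.2 + 1)

/-- What is used of a spherical cusp form `φ` on `PGL_n` over `ℚ` with the Satake parameters `α p` at the primes
`p` and the Langlands parameters `μ` at infinity. All of this is known: the local components are unitary and
generic, the Rankin-Selberg Euler product `L(s, φ × φ~)` converges absolutely for `Re s > 1` (Jacquet, Shalika), and
`Λ(s, φ × φ~) = ∏_{i,j} Γ_ℝ(s + μ_i + conj μ_j) L(s, φ × φ~)` is holomorphic except for simple poles at `0` and `1`, of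
order one, with a functional equation (Jacquet, Piatetski-Shapiro, Shalika, Moeglin, Waldspurger). -/
structure SphericalForm (α : Nat.Primes → Fin n → ℂ) (μ : Fin n → ℂ) : Prop where
  /-- `φ_p` is unitary: the set of the Satake parameters is stable under `z ↦ 1 / conj z` -/
  unitary : ∀ p, (∀ i, α p i ≠ 0) ∧
    Multiset.map (fun i => ((starRingEnd ℂ) (α p i))⁻¹) Finset.univ.val = Multiset.map (α p) Finset.univ.val
  /-- `φ_∞` is unitary -/
  unitary_infty : Multiset.map (fun i => -(starRingEnd ℂ) (μ i)) Finset.univ.val = Multiset.map μ Finset.univ.val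
  /-- the central character is trivial, at the primes -/
  central : ∀ p, ∏ i, α p i = 1
  /-- the central character is trivial, at infinity -/
  central_infty : ∑ i, μ i = 0
  /-- the bound of Jacquet and Shalika at the primes -/
  bound : ∀ p i, ‖α p i‖ ^ 2 ≤ ((p : ℕ) : ℝ)
  /-- the bound of Jacquet and Shalika at infinity -/
  bound_infty : ∀ i, |(μ i).re| < 1 / 2
  /-- absolute convergence of `L(s, φ × φ~)` for `Re s > 1` -/
  summable : ∀ σ : ℝ, 1 < σ → Summable fun x : Nat.Primes × ℕ =>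
    ‖∑ i, α x.1 i ^ (x.2 + 1)‖ ^ 2 / ((x.2 : ℝ) + 1) * (((x.1 : ℕ) : ℝ) ^ (-σ)) ^ (x.2 + 1)
  /-- the analytic properties of `L(s, φ × φ~)`, with `Ξ(s) = s (s - 1) Λ(s, φ × φ~)` -/
  rs : ∃ Ξ : ℂ → ℂ, TP.Compl Ξ ∧ ∀ s : ℂ, 1 < s.re →
    Ξ s = s * (s - 1) * (∏ i, ∏ j, Gammaℝ (s + (μ i + (starRingEnd ℂ) (μ j)))) * exp (logRS α s)

end Pool.Agent.H63.T3
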