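import Mathlib

/-!
# An effective form of Landau's lemma
-/

set_option autoImplicit false

namespace Pool.Agent.H63.T3

open Complex Filter Topology Metric Finset

/-- Taylor coefficients at `0` -/
noncomputable def tc (f : ℂ → ℂ) (k : ℕ) : ℂ := iteratedDeriv k f 0 / (k.factorial : ℂ)

theorem fac_ne (k : ℕ) : (k.factorial : ℂ) ≠ 0 := by exact_mod_cast k.factorial_ne_zero

theorem tc_congr {f g : ℂ → ℂ} (h : f =ᶠ[𝓝 0] g) (k : ℕ) : tc f k = tc g k := by
  unfold tc
  rw [h.iteratedDeriv_eq k]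

theorem tc_mul {f g : ℂ → ℂ} (hf : AnalyticAt ℂ f 0) (hg : AnalyticAt ℂ g 0) (k : ℕ) :
    tc (fun w => f w * g w) k = ∑ i ∈ range (k + 1), tc f i * tc g (k - i) := by
  unfold tc
  rw [iteratedDeriv_fun_mul hf.contDiffAt hg.contDiffAt, Finset.sum_div]
  refine Finset.sum_congr rfl fun i hi => ?_
  have hik : i ≤ k := Nat.lt_succ_iff.1 (Finset.mem_range.1 hi)
  rw [Nat.cast_choose ℂ hik]
  have h1 := fac_ne k
  have h2 := fac_ne i
  have h3 := fac_ne (k - i)
  field_simp

theorem tc_add {f g : ℂ → ℂ} (hf : AnalyticAt ℂ f 0) (hg : AnalyticAt ℂ g 0) (k : ℕ) :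
    tc (fun w => f w + g w) k = tc f k + tc g k := by
  unfold tc
  rw [iteratedDeriv_fun_add hf.contDiffAt hg.contDiffAt, add_div]

theorem tc_deriv (f : ℂ → ℂ) (k : ℕ) : tc (deriv f) k = ((k : ℂ) + 1) * tc f (k + 1) := by
  unfold tc
  rw [iteratedDeriv_succ', Nat.factorial_succ]
  have h1 := fac_ne k
  have h2 : ((k : ℂ) + 1) ≠ 0 := by exact_mod_cast Nat.succ_ne_zero k
  push_cast
  field_simp

theorem tc_zero (f : ℂ → ℂ) : tc f 0 = f 0 := by simp [tc]

theorem tc_hasSum {f : ℂ → ℂ} {R : ℝ} (hf : DifferentiableOn ℂ f (ball 0 R)) {w : ℂ} (hw : w ∈ ball (0 : ℂ) R) :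
    HasSum (fun k => tc f k * w ^ k) (f w) := by
  have h := hasSum_taylorSeries_on_ball hf hw
  refine h.congr_fun fun k => ?_
  unfold tc
  rw [sub_zero, smul_eq_mul, smul_eq_mul]
  ring

theorem tc_bound {f : ℂ → ℂ} {R r M : ℝ} (hf : DifferentiableOn ℂ f (ball 0 R)) (hr : 0 < r) (hrR : r < R)
    (hM : ∀ z ∈ ball (0 : ℂ) R, ‖f z‖ ≤ M) (k : ℕ) : ‖tc f k‖ ≤ M / r ^ k := by
  have h1 : DiffContOnCl ℂ f (ball 0 r) := by
    refine DifferentiableOn.diffContOnCl ?_
    rw [closure_ball (0 : ℂ) hr.ne']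
    exact hf.mono (closedBall_subset_ball hrR)
  have h2 := norm_iteratedDeriv_le_of_forall_mem_sphere_norm_le k hr h1 (C := M) fun z hz =>
    hM z (closedBall_subset_ball hrR (sphere_subset_closedBall hz))
  unfold tc
  rw [norm_div, norm_natCast, div_le_iff₀ (by exact_mod_cast k.factorial_pos)]
  refine h2.trans (le_of_eq ?_)
  ring

/-- all Taylor coefficients are real and not negative -/
def Nn (h : ℂ → ℂ) : Prop := ∃ η : ℕ → ℝ, (∀ k, 0 ≤ η k) ∧ ∀ k, tc h k = (η k : ℂ)

/-- majorisation by the exponential -/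
theorem exp_major {h : ℂ → ℂ} (ha : AnalyticAt ℂ h 0) (hn : Nn h) : ∃ γ : ℕ → ℝ, (∀ k, 0 ≤ γ k) ∧
    (∀ k, tc (fun w => exp (h w)) k = (γ k : ℂ)) ∧ ∀ k, ‖tc (fun w => exp (-h w)) k‖ ≤ γ k := by
  obtain ⟨η, hη0, hη⟩ := hn
  have hae : AnalyticAt ℂ (fun w => exp (h w)) 0 := ha.cexp
  have hae' : AnalyticAt ℂ (fun w => exp (-h w)) 0 := ha.neg.cexp
  have had : AnalyticAt ℂ (deriv h) 0 := ha.deriv
  have hev : ∀ᶠ w in 𝓝 (0 : ℂ), DifferentiableAt ℂ h w :=
    ha.eventually_analyticAt.mono fun w hw => hw.differentiableAt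
  have rec1 : ∀ k : ℕ, ((k : ℂ) + 1) * tc (fun w => exp (h w)) (k + 1) =
      ∑ i ∈ range (k + 1), (((i : ℂ) + 1) * (η (i + 1) : ℂ)) * tc (fun w => exp (h w)) (k - i) := by
    intro k
    rw [← tc_deriv]
    have h1 : deriv (fun w => exp (h w)) =ᶠ[𝓝 0] fun w => deriv h w * exp (h w) := by
      filter_upwards [hev] with w hw
      rw [deriv_cexp hw, mul_comm]
    rw [tc_congr h1, tc_mul had hae]
    refine Finset.sum_congr rfl fun i _ => ?_
    rw [tc_deriv, hη]
  have rec2 : ∀ k : ℕ, ((k : ℂ) + 1) * tc (fun w => exp (-h w)) (k + 1) =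
      ∑ i ∈ range (k + 1), (-(((i : ℂ) + 1) * (η (i + 1) : ℂ))) * tc (fun w => exp (-h w)) (k - i) := by
    intro k
    rw [← tc_deriv]
    have h1 : deriv (fun w => exp (-h w)) =ᶠ[𝓝 0] fun w => (-1) * (deriv h w * exp (-h w)) := by
      filter_upwards [hev] with w hw
      have h2 : HasDerivAt (fun w => exp (-h w)) (exp (-h w) * -deriv h w) w := hw.hasDerivAt.neg.cexp
      rw [h2.deriv]
      ring
    rw [tc_congr h1, tc_mul (f := fun _ => (-1 : ℂ)) (g := fun w => deriv h w * exp (-h w)) analyticAt_const (had.mul hae')]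
    have h2 : ∀ i : ℕ, tc (fun _ : ℂ => (-1 : ℂ)) i = if i = 0 then -1 else 0 := by
      intro i
      unfold tc
      rw [iteratedDeriv_const]
      split_ifs with h
      · rw [h]; simp
      · simp
    rw [Finset.sum_eq_single 0]
    · rw [h2, if_pos rfl, Nat.sub_zero, tc_mul had hae', Finset.mul_sum]
      refine Finset.sum_congr rfl fun i _ => ?_
      rw [tc_deriv, hη]
      ring
    · intro i _ hi
      rw [h2, if_neg hi, zero_mul]
    · intro h
      simp at h
  have hh0 : h 0 = (η 0 : ℂ) := by rw [← tc_zero h, hη]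
  have key : ∀ k, ∀ j ≤ k, ∃ g : ℝ, 0 ≤ g ∧ tc (fun w => exp (h w)) j = (g : ℂ) ∧
      ‖tc (fun w => exp (-h w)) j‖ ≤ g := by
    intro k
    induction k with
    | zero =>
      intro j hj
      obtain rfl : j = 0 := by omega
      refine ⟨Real.exp (η 0), (Real.exp_pos _).le, ?_, ?_⟩
      · rw [tc_zero, hh0]
        push_cast
        rfl
      · rw [tc_zero, hh0, norm_exp]
        refine Real.exp_le_exp.2 ?_
        have := hη0 0
        simp
        linarith
    | succ k ih =>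
      intro j hj
      rcases Nat.lt_or_ge j (k + 1) with hlt | hge
      · exact ih j (by omega)
      obtain rfl : j = k + 1 := by omega
      have ih' : ∀ i, ∃ g : ℝ, i ≤ k → 0 ≤ g ∧ tc (fun w => exp (h w)) i = (g : ℂ) ∧
          ‖tc (fun w => exp (-h w)) i‖ ≤ g := by
        intro i
        by_cases hi : i ≤ k
        · obtain ⟨g, hg⟩ := ih i hi
          exact ⟨g, fun _ => hg⟩
        · exact ⟨0, fun h => absurd h hi⟩
      choose g hg using ih'
      have hk1 : ((k : ℂ) + 1) ≠ 0 := by exact_mod_cast Nat.succ_ne_zero k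
      have hk1' : (0 : ℝ) < (k : ℝ) + 1 := by positivity
      refine ⟨(∑ i ∈ range (k + 1), ((i : ℝ) + 1) * η (i + 1) * g (k - i)) / ((k : ℝ) + 1), ?_, ?_, ?_⟩
      · refine div_nonneg (Finset.sum_nonneg fun i _ => ?_) hk1'.le
        have h1 := hη0 (i + 1)
        have h2 := (hg (k - i) (by omega)).1
        positivity
      · have h1 := rec1 k
        rw [mul_comm, ← eq_div_iff hk1] at h1
        rw [h1]
        push_cast
        congr 1
        refine Finset.sum_congr rfl fun i _ => ?_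
        rw [(hg (k - i) (by omega)).2.1]
      · have h1 := congrArg norm (rec2 k)
        rw [norm_mul] at h1
        have h2 : ‖(k : ℂ) + 1‖ = (k : ℝ) + 1 := by
          rw [show (k : ℂ) + 1 = (((k : ℝ) + 1 : ℝ) : ℂ) by push_cast; ring, norm_real,
            Real.norm_of_nonneg hk1'.le]
        rw [h2] at h1
        rw [le_div_iff₀ hk1', mul_comm, h1]
        refine (norm_sum_le _ _).trans (Finset.sum_le_sum fun i _ => ?_)
        rw [norm_mul, norm_neg, norm_mul]
        have h3 : ‖(i : ℂ) + 1‖ = (i : ℝ) + 1 := by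
          rw [show (i : ℂ) + 1 = (((i : ℝ) + 1 : ℝ) : ℂ) by push_cast; ring, norm_real,
            Real.norm_of_nonneg (by positivity)]
        rw [h3, norm_real, Real.norm_of_nonneg (hη0 _)]
        have h4 := (hg (k - i) (by omega)).2.2
        have h5 := hη0 (i + 1)
        gcongr
  choose γ hγ using fun k => key k k le_rfl
  exact ⟨γ, fun k => (hγ k).1, fun k => (hγ k).2.1, fun k => (hγ k).2.2⟩

end Pool.Agent.H63.T3
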