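import Pool.Graph.R_seed8.W820.TW.FE
import Pool.Agent.H63.T3.Defs

/-!
# The reciprocal of the Gamma function; monotonicity of a completed `L`-function
-/

set_option autoImplicit false

namespace Pool.Agent.H63.T3

open Complex Filter Topology Metric Set

/-- `1 / Γ` in the right half plane -/
theorem inv_Gamma_right : ∃ M : ℝ, 1 ≤ M ∧ ∀ z : ℂ, 0 ≤ z.re →
    ‖(Gamma z)⁻¹‖ ≤ M * Real.exp (Real.pi * |z.im|) := by
  obtain ⟨M1, hM1, h1⟩ := Pool.Agent.W820.TW.inv_Gamma_le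
  have hcomp : IsCompact (Icc (0 : ℝ) 2 ×ℂ Icc (-1 : ℝ) 1) := isCompact_Icc.reProdIm isCompact_Icc
  obtain ⟨M2, h2⟩ := hcomp.exists_bound_of_continuousOn (f := fun z => (Gamma z)⁻¹)
    differentiable_one_div_Gamma.continuous.continuousOn
  have key : ∀ n : ℕ, ∀ z : ℂ, 0 ≤ z.re → z.re ≤ 2 + n → |z.im| ≤ 1 → ‖(Gamma z)⁻¹‖ ≤ M2 := by
    intro n
    induction n with
    | zero =>
      intro z hz1 hz2 hz3
      refine h2 z ?_
      rw [mem_reProdIm]
      rw [abs_le] at hz3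
      exact ⟨⟨hz1, by simpa using hz2⟩, hz3⟩
    | succ n ih =>
      intro z hz1 hz2 hz3
      rcases le_or_gt z.re 2 with h | h
      · refine h2 z ?_
        rw [mem_reProdIm]
        rw [abs_le] at hz3
        exact ⟨⟨hz1, h⟩, hz3⟩
      · have e1 : (z - 1).re = z.re - 1 := by simp
        have e2 : (z - 1).im = z.im := by simp
        have h3 := ih (z - 1) (by rw [e1]; linarith) (by rw [e1]; push_cast at hz2; linarith) (by rw [e2]; exact hz3)
        have hn : 1 ≤ ‖z - 1‖ := by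
          have := abs_re_le_norm (z - 1)
          rw [e1] at this
          have h4 := le_abs_self (z.re - 1)
          linarith
        have hz1' : z - 1 ≠ 0 := by
          intro h'
          rw [h', norm_zero] at hn
          linarith
        have hG : Gamma z = (z - 1) * Gamma (z - 1) := by
          have := Gamma_add_one (z - 1) hz1'
          rwa [sub_add_cancel] at this
        rw [hG, mul_inv, norm_mul, norm_inv (z - 1)]
        calc ‖z - 1‖⁻¹ * ‖(Gamma (z - 1))⁻¹‖ ≤ 1 * ‖(Gamma (z - 1))⁻¹‖ := by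
              gcongr
              exact inv_le_one_of_one_le₀ hn
          _ ≤ M2 := by rw [one_mul]; exact h3
  refine ⟨max M1 M2 + 1, ?_, fun z hz => ?_⟩
  · have := le_max_left M1 M2
    linarith
  have hexp : 1 ≤ Real.exp (Real.pi * |z.im|) := Real.one_le_exp (by positivity)
  rcases le_total 1 |z.im| with h | h
  · refine (h1 z (by linarith) h).trans ?_
    have := le_max_left M1 M2
    gcongr
    linarith
  · obtain ⟨n, hn⟩ := exists_nat_ge z.re
    have h3 := key n z hz (by linarith) h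
    have h4 := le_max_right M1 M2
    have h5 := le_max_left M1 M2
    nlinarith

theorem inv_Gammaℝ_right : ∃ M : ℝ, 1 ≤ M ∧ ∀ z : ℂ, 0 ≤ z.re → ‖(Gammaℝ z)⁻¹‖ ≤ M * Real.exp (4 * ‖z‖) := by
  obtain ⟨M, hM, h⟩ := inv_Gamma_right
  refine ⟨M, hM, fun z hz => ?_⟩
  have hre : (z / 2).re = z.re / 2 := by simp
  have him : (z / 2).im = z.im / 2 := by simp
  have h1 := h (z / 2) (by rw [hre]; linarith)
  rw [Gammaℝ_def, mul_inv, norm_mul, norm_inv, norm_cpow_eq_rpow_re_of_pos Real.pi_pos]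
  have e : (-z / 2).re = -(z.re / 2) := by simp [neg_div]
  rw [e, Real.rpow_neg Real.pi_pos.le, inv_inv]
  have hpi : Real.pi ^ (z.re / 2) ≤ Real.exp (2 * ‖z‖) := by
    rw [Real.rpow_def_of_pos Real.pi_pos]
    refine Real.exp_le_exp.2 ?_
    have h2 : Real.log Real.pi ≤ 4 := by
      have := Real.log_le_sub_one_of_pos Real.pi_pos
      have := Real.pi_le_four
      linarith
    have h3 := re_le_norm z
    have h4 : 0 ≤ Real.log Real.pi := Real.log_nonneg (by linarith [Real.pi_gt_three])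
    nlinarith
  have h2 : Real.exp (Real.pi * |(z / 2).im|) ≤ Real.exp (2 * ‖z‖) := by
    refine Real.exp_le_exp.2 ?_
    rw [him, abs_div, abs_two]
    have h3 := abs_im_le_norm z
    have := Real.pi_le_four
    have h4 := abs_nonneg z.im
    have h5 := Real.pi_pos
    nlinarith
  calc Real.pi ^ (z.re / 2) * ‖(Gamma (z / 2))⁻¹‖ ≤ Real.exp (2 * ‖z‖) * (M * Real.exp (2 * ‖z‖)) := by
        refine mul_le_mul hpi (h1.trans ?_) (norm_nonneg _) (Real.exp_pos _).le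
        gcongr
    _ = M * Real.exp (4 * ‖z‖) := by
        rw [show (4 : ℝ) * ‖z‖ = 2 * ‖z‖ + 2 * ‖z‖ by ring, Real.exp_add]
        ring

/-- the root number has absolute value one -/
theorem fe_norm {Ξ : ℂ → ℂ} (h : TP.Compl Ξ) (s : ℂ) : ‖Ξ (1 - s)‖ = ‖Ξ s‖ := by
  obtain ⟨ω, hω, hfe⟩ := h.fe
  have h1 : Ξ 2 ≠ 0 := h.nz 2 (by norm_num)
  have h2 := hfe 2
  have h3 := hfe (1 - 2)
  rw [sub_sub_cancel, h2, ← mul_assoc] at h3
  have h4 : ω * ω = 1 := by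
    have : (ω * ω - 1) * Ξ 2 = 0 := by linear_combination -h3
    rcases mul_eq_zero.1 this with h5 | h5
    · exact sub_eq_zero.1 h5
    · exact absurd h5 h1
  have h5 : ‖ω‖ = 1 := by
    have h6 := congrArg norm h4
    rw [norm_mul, norm_one] at h6
    nlinarith [norm_nonneg ω]
  rw [hfe, norm_mul, h5, one_mul]

theorem shift_mono {Ξ : ℂ → ℂ} (h : TP.Compl Ξ)
    (hconj : ∀ t : ℝ, ‖Ξ (5 / 2 + t * I)‖ = ‖Ξ (5 / 2 - t * I)‖)
    (hinv : ∃ B : ℝ, ∀ s : ℂ, 5 / 2 ≤ s.re → ‖(Ξ s)⁻¹‖ ≤ Real.exp (B * (1 + ‖s‖)))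
    (hreal : ∃ C : ℝ, ∀ σ : ℝ, 2 ≤ σ → ‖Ξ σ‖ ≤ C * ‖Ξ (σ + 4)‖) {s : ℂ} (hs : -(3 / 2) ≤ s.re) :
    ‖Ξ s‖ ≤ ‖Ξ (s + 4)‖ := by
  obtain ⟨K, hK⟩ := h.growth
  obtain ⟨B, hB⟩ := hinv
  obtain ⟨C, hC⟩ := hreal
  set f : ℂ → ℂ := fun z => Ξ (z - 3 / 2) * (Ξ (z + 5 / 2))⁻¹ with hf
  have hne : ∀ z : ℂ, 0 ≤ z.re → Ξ (z + 5 / 2) ≠ 0 := fun z hz => h.nz _ (by simp; norm_num; linarith)
  have hdiff : ∀ z : ℂ, 0 ≤ z.re → DifferentiableAt ℂ f z := by
    intro z hz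
    have h1 : DifferentiableAt ℂ (fun z : ℂ => Ξ (z - 3 / 2)) z :=
      (h.diff.comp (differentiable_id.sub_const _)) z
    have h2 : DifferentiableAt ℂ (fun z : ℂ => Ξ (z + 5 / 2)) z :=
      (h.diff.comp (differentiable_id.add_const _)) z
    exact h1.mul (h2.inv (hne z hz))
  have hcl : DiffContOnCl ℂ f {z | 0 < z.re} := by
    refine DifferentiableOn.diffContOnCl fun z hz => ?_
    rw [closure_setOf_lt_re] at hz
    exact (hdiff z hz).differentiableWithinAt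
  have hmain := PhragmenLindelof.right_half_plane_of_bounded_on_real (C := 1) (z := s + 3 / 2) hcl ?_ ?_ ?_ ?_
  · rw [hf] at hmain
    simp only at hmain
    rw [show s + 3 / 2 - 3 / 2 = s by ring, show s + 3 / 2 + 5 / 2 = s + 4 by ring, norm_mul, norm_inv] at hmain
    have h0 : 0 < ‖Ξ (s + 4)‖ := norm_pos_iff.2 (h.nz _ (by simp; linarith))
    rwa [← div_eq_mul_inv, div_le_one h0] at hmain
  · refine ⟨3 / 2, by norm_num, |K| * (7 / 2) ^ (3 / 2 : ℝ) + |B| * (9 / 2), ?_⟩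
    refine Asymptotics.IsBigO.of_bound 1 ?_
    have h1 : ∀ᶠ z : ℂ in Bornology.cobounded ℂ, 1 ≤ ‖z‖ := tendsto_norm_cobounded_atTop.eventually_ge_atTop 1
    rw [eventually_inf_principal]
    filter_upwards [h1] with z hz1 hz2
    have hz2' : 0 < z.re := hz2
    rw [one_mul, hf]
    simp only
    rw [norm_mul, Real.norm_of_nonneg (Real.exp_pos _).le]
    have e1 : ‖Ξ (z - 3 / 2)‖ ≤ Real.exp (|K| * (7 / 2) ^ (3 / 2 : ℝ) * ‖z‖ ^ (3 / 2 : ℝ)) := by
      refine (hK _).trans (Real.exp_le_exp.2 ?_)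
      have h2 : 1 + ‖z - 3 / 2‖ ≤ 7 / 2 * ‖z‖ := by
        have h3 := norm_sub_le z (3 / 2)
        have h4 : ‖(3 / 2 : ℂ)‖ = 3 / 2 := by norm_num
        rw [h4] at h3
        linarith
      calc K * (1 + ‖z - 3 / 2‖) ^ (3 / 2 : ℝ) ≤ |K| * (1 + ‖z - 3 / 2‖) ^ (3 / 2 : ℝ) := by
            gcongr
            exact le_abs_self _
        _ ≤ |K| * (7 / 2 * ‖z‖) ^ (3 / 2 : ℝ) := by gcongr
        _ = _ := by rw [Real.mul_rpow (by norm_num) (norm_nonneg _)]; ring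
    have e2 : ‖(Ξ (z + 5 / 2))⁻¹‖ ≤ Real.exp (|B| * (9 / 2) * ‖z‖ ^ (3 / 2 : ℝ)) := by
      refine (hB _ (by simp; norm_num; linarith)).trans (Real.exp_le_exp.2 ?_)
      have h2 : 1 + ‖z + 5 / 2‖ ≤ 9 / 2 * ‖z‖ := by
        have h3 := norm_add_le z (5 / 2)
        have h4 : ‖(5 / 2 : ℂ)‖ = 5 / 2 := by norm_num
        rw [h4] at h3
        linarith
      have h5 : ‖z‖ ≤ ‖z‖ ^ (3 / 2 : ℝ) := by
        calc ‖z‖ = ‖z‖ ^ (1 : ℝ) := (Real.rpow_one _).symm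
          _ ≤ _ := Real.rpow_le_rpow_of_exponent_le hz1 (by norm_num)
      calc B * (1 + ‖z + 5 / 2‖) ≤ |B| * (1 + ‖z + 5 / 2‖) := by
            gcongr
            exact le_abs_self _
        _ ≤ |B| * (9 / 2 * ‖z‖ ^ (3 / 2 : ℝ)) := by
            gcongr
            exact h2.trans (by gcongr)
        _ = _ := by ring
    calc _ ≤ Real.exp (|K| * (7 / 2) ^ (3 / 2 : ℝ) * ‖z‖ ^ (3 / 2 : ℝ)) *
          Real.exp (|B| * (9 / 2) * ‖z‖ ^ (3 / 2 : ℝ)) :=
          mul_le_mul e1 e2 (norm_nonneg _) (Real.exp_pos _).le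
      _ = _ := by rw [← Real.exp_add]; congr 1; ring
  · refine ⟨C, ?_⟩
    rw [eventually_map]
    filter_upwards [eventually_ge_atTop (7 / 2 : ℝ)] with x hx
    rw [hf]
    simp only
    have h1 := hC (x - 3 / 2) (by linarith)
    have e1 : (((x - 3 / 2 : ℝ) : ℂ)) = (x : ℂ) - 3 / 2 := by push_cast; ring
    have e2 : (((x - 3 / 2 : ℝ) : ℂ)) + 4 = (x : ℂ) + 5 / 2 := by push_cast; ring
    rw [e2, e1] at h1
    rw [norm_mul, norm_inv]
    have h0 : 0 < ‖Ξ ((x : ℂ) + 5 / 2)‖ := norm_pos_iff.2 (hne _ (by simp; linarith))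
    rwa [← div_eq_mul_inv, div_le_iff₀ h0]
  · intro x
    rw [hf]
    simp only
    have e1 : (x : ℂ) * I - 3 / 2 = 1 - (5 / 2 - x * I) := by ring
    have e2 : (x : ℂ) * I + 5 / 2 = 5 / 2 + x * I := by ring
    rw [e1, e2, norm_mul, fe_norm h, norm_inv, hconj]
    have h0 : 0 < ‖Ξ (5 / 2 - x * I)‖ := norm_pos_iff.2 (h.nz _ (by simp; norm_num))
    rw [mul_inv_cancel₀ h0.ne']
  · simp
    linarith

end Pool.Agent.H63.T3
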