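import Pool.Graph.R_seed8.W189.TP.Zeta
import Pool.Agent.H63.T3.Gam2
import Pool.Agent.H63.T3.Zet

/-!
# The Rankin-Selberg `L`-function of a spherical cusp form
-/

set_option autoImplicit false

namespace Pool.Agent.H63.T3

open Complex Filter Topology Metric
open Pool.Agent.W189.TP (DS norm_term summ_mono summ_cplx DS_norm_le DS_diff)

variable {n : ℕ}

/-- `log (p ^ (k + 1))` -/
noncomputable def ll (x : Nat.Primes × ℕ) : ℝ := ((x.2 : ℝ) + 1) * Real.log ((x.1 : ℕ) : ℝ)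

theorem pr_one_lt (p : Nat.Primes) : (1 : ℝ) < ((p : ℕ) : ℝ) := by exact_mod_cast p.2.one_lt

theorem pr_two_le (p : Nat.Primes) : (2 : ℝ) ≤ ((p : ℕ) : ℝ) := by exact_mod_cast p.2.two_le

theorem ll_nonneg (x : Nat.Primes × ℕ) : 0 ≤ ll x := by
  unfold ll
  have := Real.log_nonneg (pr_one_lt x.1).le
  positivity

theorem exp_ll (x : Nat.Primes × ℕ) (s : ℂ) :
    Complex.exp (-(s * ll x)) = (((x.1 : ℕ) : ℂ) ^ (-s)) ^ (x.2 + 1) := by
  have hp : ((x.1 : ℕ) : ℂ) ≠ 0 := by exact_mod_cast x.1.2.ne_zero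
  rw [Complex.cpow_def_of_ne_zero hp, ← Complex.exp_nat_mul]
  congr 1
  unfold ll
  push_cast
  ring

theorem rexp_ll (x : Nat.Primes × ℕ) (σ : ℝ) :
    Real.exp (-(σ * ll x)) = (((x.1 : ℕ) : ℝ) ^ (-σ)) ^ (x.2 + 1) := by
  have hp : (0 : ℝ) < ((x.1 : ℕ) : ℝ) := by linarith [pr_one_lt x.1]
  rw [Real.rpow_def_of_pos hp, ← Real.exp_nat_mul]
  congr 1
  unfold ll
  push_cast
  ring

/-- summability over the prime powers -/
theorem summable_pk {σ : ℝ} (hσ : 1 < σ) : Summable fun x : Nat.Primes × ℕ => Real.exp (-(σ * ll x)) := by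
  have h1 := Pool.Agent.W189.TP.summable_pp (S := ∅) (fun _ => 1) (fun _ => zero_le_one) (by linarith : 0 < σ)
    ((Pool.Agent.W189.TP.summable_primes_subtype hσ).congr fun p => (one_mul _).symm)
  have h2 := h1.comp_injective (i := fun x : Nat.Primes × ℕ =>
    ((⟨x.1, Finset.notMem_empty _⟩, x.2) : Pool.Agent.W189.TP.PS ∅ × ℕ)) (by
      rintro ⟨p, k⟩ ⟨q, l⟩ h
      simp only [Prod.mk.injEq, Subtype.mk.injEq] at h
      exact Prod.ext h.1 h.2)
  refine h2.congr fun x => ?_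
  simp only [Function.comp_apply, one_mul]
  rfl

/-- the coefficients of `log L(s, φ × φ~)` -/
noncomputable def cRS (α : Nat.Primes → Fin n → ℂ) (x : Nat.Primes × ℕ) : ℝ :=
  ‖∑ i, α x.1 i ^ (x.2 + 1)‖ ^ 2 / ((x.2 : ℝ) + 1)

theorem cRS_nonneg (α : Nat.Primes → Fin n → ℂ) (x : Nat.Primes × ℕ) : 0 ≤ cRS α x := by
  unfold cRS
  positivity

theorem logRS_eq (α : Nat.Primes → Fin n → ℂ) (s : ℂ) : logRS α s = DS (cRS α) ll s := by
  unfold logRS DS
  refine tsum_congr fun x => ?_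
  rw [exp_ll]
  rfl

namespace SphericalForm

variable {α : Nat.Primes → Fin n → ℂ} {μ : Fin n → ℂ}

theorem summ (h : SphericalForm α μ) {σ : ℝ} (hσ : 1 < σ) :
    Summable fun x : Nat.Primes × ℕ => |cRS α x| * Real.exp (-(σ * ll x)) := by
  refine (h.summable σ hσ).congr fun x => ?_
  rw [abs_of_nonneg (cRS_nonneg α x), rexp_ll]
  rfl

theorem tr_le (h : SphericalForm α μ) (x : Nat.Primes × ℕ) :
    ‖∑ i, α x.1 i ^ (x.2 + 1)‖ ^ 2 ≤ (n : ℝ) ^ 2 * ((x.1 : ℕ) : ℝ) ^ (x.2 + 1) := by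
  have h1 : ∀ i ∈ Finset.univ, ‖α x.1 i ^ (x.2 + 1)‖ ≤ Real.sqrt (((x.1 : ℕ) : ℝ) ^ (x.2 + 1)) := by
    intro i _
    refine Real.le_sqrt_of_sq_le ?_
    rw [norm_pow, ← pow_mul, mul_comm, pow_mul]
    exact pow_le_pow_left₀ (by positivity) (h.bound x.1 i) _
  have h2 := norm_sum_le_of_le Finset.univ h1
  rw [Finset.sum_const, Finset.card_univ, Fintype.card_fin, nsmul_eq_mul] at h2
  calc ‖∑ i, α x.1 i ^ (x.2 + 1)‖ ^ 2 ≤ ((n : ℝ) * Real.sqrt (((x.1 : ℕ) : ℝ) ^ (x.2 + 1))) ^ 2 :=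
        pow_le_pow_left₀ (norm_nonneg _) h2 2
    _ = _ := by rw [mul_pow, Real.sq_sqrt (by positivity)]

/-- the bound of `log L(s, φ × φ~)` far to the right -/
theorem logRS_le (n : ℕ) : ∃ B : ℝ, 0 ≤ B ∧ ∀ (α : Nat.Primes → Fin n → ℂ) (μ : Fin n → ℂ), SphericalForm α μ →
    ∀ s : ℂ, 5 / 2 ≤ s.re → ‖logRS α s‖ ≤ B := by
  refine ⟨(n : ℝ) ^ 2 * ∑' x : Nat.Primes × ℕ, Real.exp (-((3 / 2 : ℝ) * ll x)), ?_, fun α μ h s hs => ?_⟩
  · have : 0 ≤ ∑' x : Nat.Primes × ℕ, Real.exp (-((3 / 2 : ℝ) * ll x)) := tsum_nonneg fun x => (Real.exp_pos _).le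
    positivity
  · rw [logRS_eq]
    refine tsum_of_norm_bounded ((summable_pk (by norm_num : (1 : ℝ) < 3 / 2)).hasSum.mul_left _) fun x => ?_
    rw [norm_term, abs_of_nonneg (cRS_nonneg α x)]
    have h1 : cRS α x ≤ (n : ℝ) ^ 2 * Real.exp (ll x) := by
      unfold cRS
      rw [div_le_iff₀ (by positivity)]
      have h2 := h.tr_le x
      have h3 : Real.exp (ll x) = ((x.1 : ℕ) : ℝ) ^ (x.2 + 1) := by
        have := rexp_ll x (-1)
        rw [neg_neg, Real.rpow_one] at this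
        rw [← this]
        congr 1
        ring
      rw [h3]
      have h4 : (0 : ℝ) ≤ x.2 := Nat.cast_nonneg _
      have h5 : 0 ≤ (n : ℝ) ^ 2 * ((x.1 : ℕ) : ℝ) ^ (x.2 + 1) := by positivity
      nlinarith
    calc cRS α x * Real.exp (-(s.re * ll x)) ≤ ((n : ℝ) ^ 2 * Real.exp (ll x)) * Real.exp (-((5 / 2 : ℝ) * ll x)) := by
          have := ll_nonneg x
          gcongr
      _ = (n : ℝ) ^ 2 * Real.exp (-((3 / 2 : ℝ) * ll x)) := by
          rw [mul_assoc, ← Real.exp_add]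
          congr 2
          ring

/-- the parameters of the Gamma factors -/
noncomputable def aa (μ : Fin n → ℂ) (x : Fin n × Fin n) : ℂ := μ x.1 + (starRingEnd ℂ) (μ x.2)

theorem prod_aa (μ : Fin n → ℂ) (f : ℂ → ℂ) :
    ∏ i, ∏ j, f (μ i + (starRingEnd ℂ) (μ j)) = ∏ x : Fin n × Fin n, f (aa μ x) := by
  rw [Fintype.prod_prod_type]
  rfl

theorem aa_swap (μ : Fin n → ℂ) (x : Fin n × Fin n) : aa μ x.swap = (starRingEnd ℂ) (aa μ x) := by
  unfold aa
  simp [add_comm]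

theorem aa_re (h : SphericalForm α μ) (x : Fin n × Fin n) : |(aa μ x).re| < 1 := by
  unfold aa
  have h1 := h.bound_infty x.1
  have h2 := h.bound_infty x.2
  rw [add_re, conj_re]
  rw [abs_lt] at h1 h2 ⊢
  constructor <;> linarith

theorem conj_Gammaℝ (s : ℂ) : Gammaℝ ((starRingEnd ℂ) s) = (starRingEnd ℂ) (Gammaℝ s) := by
  rw [Gammaℝ_def, Gammaℝ_def, map_mul]
  congr 1
  · have hpi : ((Real.pi : ℝ) : ℂ) ≠ 0 := by exact_mod_cast Real.pi_pos.ne'
    have e : -(starRingEnd ℂ) s / 2 = (starRingEnd ℂ) (-s / 2) := by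
      rw [map_div₀, map_neg, Complex.conj_ofNat]
    rw [e, cpow_conj _ _ (by rw [arg_ofReal_of_nonneg Real.pi_pos.le]; exact Real.pi_pos.ne), conj_ofReal]
  · rw [← Gamma_conj, map_div₀, Complex.conj_ofNat]

/-- everything about the completed `L`-function in one place -/
theorem conj_Xi {Ξ : ℂ → ℂ} (hΞ : ∀ s : ℂ, 1 < s.re →
    Ξ s = s * (s - 1) * (∏ i, ∏ j, Gammaℝ (s + (μ i + (starRingEnd ℂ) (μ j)))) * exp (logRS α s)) {s : ℂ}
    (hs : 1 < s.re) : Ξ ((starRingEnd ℂ) s) = (starRingEnd ℂ) (Ξ s) := by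
  rw [hΞ s hs, hΞ _ (by rwa [conj_re])]
  rw [map_mul, map_mul, map_mul, map_sub, map_one]
  congr 1
  · congr 1
    rw [prod_aa μ (fun a => Gammaℝ (s + a)), prod_aa μ (fun a => Gammaℝ ((starRingEnd ℂ) s + a)), map_prod]
    refine Fintype.prod_equiv (Equiv.prodComm _ _) _ _ fun x => ?_
    rw [← conj_Gammaℝ, map_add]
    congr 2
    rw [Equiv.prodComm_apply, aa_swap, Complex.conj_conj]
  · rw [← exp_conj]
    congr 1
    rw [logRS_eq, logRS_eq]
    unfold DS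
    rw [conj_tsum]
    refine tsum_congr fun x => ?_
    rw [map_mul, conj_ofReal, ← exp_conj, map_neg, map_mul, conj_ofReal]

theorem Gammaℝ_add_four {z : ℂ} (hz : -2 < z.re) :
    (Gammaℝ z)⁻¹ = z * (z + 2) / (2 * Real.pi) ^ 2 * (Gammaℝ (z + 4))⁻¹ := by
  have hpi : ((Real.pi : ℝ) : ℂ) ≠ 0 := by exact_mod_cast Real.pi_pos.ne'
  by_cases h0 : z = 0
  · rw [h0, zero_mul, zero_div, zero_mul, inv_eq_zero, Gammaℝ_eq_zero_iff]
    exact ⟨0, by simp⟩
  · have h2 : z + 2 ≠ 0 := by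
      intro h
      have := congrArg re h
      simp at this
      linarith
    have e1 := Gammaℝ_add_two h0
    have e2 := Gammaℝ_add_two h2
    rw [show z + 2 + 2 = z + 4 by ring, e1] at e2
    rw [e2]
    by_cases hG : Gammaℝ z = 0
    · simp [hG]
    · field_simp

/-- the monotonicity -/
theorem mono (h : SphericalForm α μ) {Ξ : ℂ → ℂ} (hC : TP.Compl Ξ) (hΞ : ∀ s : ℂ, 1 < s.re →
    Ξ s = s * (s - 1) * (∏ i, ∏ j, Gammaℝ (s + (μ i + (starRingEnd ℂ) (μ j)))) * exp (logRS α s)) {s : ℂ}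
    (hs : -(3 / 2) ≤ s.re) : ‖Ξ s‖ ≤ ‖Ξ (s + 4)‖ := by
  obtain ⟨B, hB0, hB⟩ := logRS_le n
  have hB' := hB α μ h
  refine shift_mono hC ?_ ?_ ?_ hs
  · intro t
    have h1 : (5 / 2 - t * I : ℂ) = (starRingEnd ℂ) (5 / 2 + t * I) := by
      rw [map_add, map_mul, conj_ofReal, conj_I, map_div₀, Complex.conj_ofNat, Complex.conj_ofNat]
      ring
    rw [h1, conj_Xi hΞ (by simp; norm_num), RCLike.norm_conj]
  · obtain ⟨M, hM1, hM⟩ := inv_Gammaℝ_right
    refine ⟨(∑ x : Fin n × Fin n, (Real.log M + 4 + 4 * ‖aa μ x‖)) + B, fun s hs => ?_⟩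
    have hlM : 0 ≤ Real.log M := Real.log_nonneg hM1
    rw [hΞ s (by linarith), prod_aa μ (fun a => Gammaℝ (s + a))]
    rw [mul_inv, mul_inv, mul_inv, norm_mul, norm_mul, norm_mul, norm_inv, norm_inv, ← Complex.exp_neg]
    have e1 : ‖s‖⁻¹ ≤ 1 := by
      refine inv_le_one_of_one_le₀ ?_
      have := re_le_norm s
      linarith
    have e2 : ‖s - 1‖⁻¹ ≤ 1 := by
      refine inv_le_one_of_one_le₀ ?_
      have := re_le_norm (s - 1)
      simp at this
      linarith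
    have e3 : ‖(∏ x : Fin n × Fin n, Gammaℝ (s + aa μ x))⁻¹‖ ≤
        Real.exp ((∑ x : Fin n × Fin n, (Real.log M + 4 + 4 * ‖aa μ x‖)) * (1 + ‖s‖)) := by
      rw [← Finset.prod_inv_distrib, norm_prod, Finset.sum_mul, Real.exp_sum]
      refine Finset.prod_le_prod (fun x _ => norm_nonneg _) fun x _ => ?_
      have h2 := abs_lt.1 (h.aa_re x)
      refine (hM _ (by simp; linarith)).trans ?_
      nth_rewrite 1 [← Real.exp_log (by linarith : 0 < M)]
      rw [← Real.exp_add]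
      refine Real.exp_le_exp.2 ?_
      have h3 := norm_add_le s (aa μ x)
      have h4 := norm_nonneg s
      have h5 := norm_nonneg (aa μ x)
      nlinarith [mul_nonneg hlM h4, mul_nonneg h5 h4]
    have e4 : ‖exp (-logRS α s)‖ ≤ Real.exp (B * (1 + ‖s‖)) := by
      rw [norm_exp]
      refine Real.exp_le_exp.2 ?_
      have h2 := abs_re_le_norm (logRS α s)
      have h3 := neg_abs_le (logRS α s).re
      have h4 := hB' s hs
      have h5 := norm_nonneg s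
      rw [neg_re]
      nlinarith
    calc _ ≤ 1 * 1 * Real.exp ((∑ x : Fin n × Fin n, (Real.log M + 4 + 4 * ‖aa μ x‖)) * (1 + ‖s‖)) *
          Real.exp (B * (1 + ‖s‖)) := by
          have h6 : 0 ≤ ‖s‖⁻¹ := by positivity
          have h7 : 0 ≤ ‖s - 1‖⁻¹ := by positivity
          gcongr
      _ = _ := by rw [one_mul, one_mul, ← Real.exp_add]; congr 1; ring
  · set B2 := ∑' x : Nat.Primes × ℕ, |cRS α x| * Real.exp (-(2 * ll x)) with hB2
    refine ⟨(∏ _x : Fin n × Fin n, ((2 * Real.pi) ^ 2)) * Real.exp (B2 + B), fun σ hσ => ?_⟩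
    have hσ1 : 1 < ((σ : ℝ) : ℂ).re := by rw [ofReal_re]; linarith
    have hσ4 : 1 < ((σ : ℝ) : ℂ).re + 4 := by linarith
    rw [hΞ σ hσ1, hΞ (σ + 4) (by simp; linarith), prod_aa μ (fun a => Gammaℝ (σ + a)),
      prod_aa μ (fun a => Gammaℝ (σ + 4 + a))]
    rw [norm_mul, norm_mul, norm_mul, norm_mul, norm_mul, norm_mul]
    have e1 : ‖(σ : ℂ)‖ ≤ ‖(σ : ℂ) + 4‖ := by
      rw [show (σ : ℂ) + 4 = ((σ + 4 : ℝ) : ℂ) by push_cast; ring, norm_real, norm_real, Real.norm_of_nonneg (by linarith),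
        Real.norm_of_nonneg (by linarith)]
      linarith
    have e2 : ‖(σ : ℂ) - 1‖ ≤ ‖(σ : ℂ) + 4 - 1‖ := by
      rw [show (σ : ℂ) + 4 - 1 = ((σ + 4 - 1 : ℝ) : ℂ) by push_cast; ring,
        show (σ : ℂ) - 1 = ((σ - 1 : ℝ) : ℂ) by push_cast; ring, norm_real, norm_real, Real.norm_of_nonneg (by linarith),
        Real.norm_of_nonneg (by linarith)]
      linarith
    have e3 : ‖∏ x : Fin n × Fin n, Gammaℝ (σ + aa μ x)‖ ≤ (∏ _x : Fin n × Fin n, ((2 * Real.pi) ^ 2)) *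
        ‖∏ x : Fin n × Fin n, Gammaℝ (σ + 4 + aa μ x)‖ := by
      rw [norm_prod, norm_prod, ← Finset.prod_mul_distrib]
      refine Finset.prod_le_prod (fun x _ => norm_nonneg _) fun x _ => ?_
      have h2 := abs_lt.1 (h.aa_re x)
      set z := (σ : ℂ) + aa μ x with hz
      have hzre : 1 < z.re := by rw [hz]; simp; linarith
      have h3 : (σ : ℂ) + 4 + aa μ x = z + 4 := by rw [hz]; ring
      rw [h3]
      have h4 := Gammaℝ_add_four (z := z) (by linarith)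
      have h5 : Gammaℝ z ≠ 0 := Gammaℝ_ne_zero_of_re_pos (by linarith)
      have h6 : Gammaℝ (z + 4) ≠ 0 := Gammaℝ_ne_zero_of_re_pos (by simp; linarith)
      have h7 := congrArg norm h4
      rw [norm_inv, norm_mul, norm_div, norm_mul, norm_inv, norm_pow] at h7
      have h8 : ‖(2 * (Real.pi : ℂ))‖ = 2 * Real.pi := by
        rw [show (2 * (Real.pi : ℂ)) = ((2 * Real.pi : ℝ) : ℂ) by push_cast; ring, norm_real,
          Real.norm_of_nonneg (by positivity)]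
      rw [h8] at h7
      have h9 : 0 < ‖Gammaℝ z‖ := norm_pos_iff.2 h5
      have h10 : 0 < ‖Gammaℝ (z + 4)‖ := norm_pos_iff.2 h6
      have h11 : 1 ≤ ‖z‖ := by
        have := re_le_norm z
        linarith
      have h12 : 1 ≤ ‖z + 2‖ := by
        have := re_le_norm (z + 2)
        simp at this
        linarith
      have h13 : (2 * Real.pi) ^ 2 * ‖Gammaℝ (z + 4)‖ = ‖z‖ * ‖z + 2‖ * ‖Gammaℝ z‖ := by
        have hpi : (0 : ℝ) < 2 * Real.pi := by positivity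
        field_simp at h7 ⊢
        linarith
      rw [h13]
      nlinarith [mul_le_mul h11 h12 zero_le_one (by positivity)]
    have e4 : ‖exp (logRS α σ)‖ ≤ Real.exp (B2 + B) * ‖exp (logRS α (σ + 4))‖ := by
      rw [norm_exp, norm_exp, ← Real.exp_add]
      refine Real.exp_le_exp.2 ?_
      have h2 := hB' (σ + 4) (by simp; linarith)
      have h3 : ‖logRS α σ‖ ≤ B2 := by
        rw [logRS_eq]
        refine tsum_of_norm_bounded (h.summ (by norm_num : (1 : ℝ) < 2)).hasSum fun x => ?_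
        rw [norm_term, ofReal_re]
        have := ll_nonneg x
        gcongr
      have h4 := re_le_norm (logRS α σ)
      have h5 := abs_re_le_norm (logRS α (σ + 4))
      have h6 := neg_abs_le (logRS α (σ + 4)).re
      linarith
    calc _ ≤ ‖(σ : ℂ) + 4‖ * ‖(σ : ℂ) + 4 - 1‖ * ((∏ _x : Fin n × Fin n, ((2 * Real.pi) ^ 2)) *
          ‖∏ x : Fin n × Fin n, Gammaℝ (σ + 4 + aa μ x)‖) * (Real.exp (B2 + B) * ‖exp (logRS α (σ + 4))‖) := by
          gcongr
      _ = _ := by ring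

end SphericalForm

end Pool.Agent.H63.T3
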