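import Pool.Agent.H63.T3.Form

/-!
# The quotient `L(s, φ × φ~) / ζ(s)` in a disc
-/

set_option autoImplicit false

namespace Pool.Agent.H63.T3

open Complex Filter Topology Metric
open Pool.Agent.W189.TP (DS norm_term summ_mono summ_cplx DS_norm_le DS_diff)

variable {n : ℕ}

namespace SphericalForm

variable {α : Nat.Primes → Fin n → ℂ} {μ : Fin n → ℂ}

/-- the product of the reciprocals of the Gamma factors -/
noncomputable def JJ (μ : Fin n → ℂ) (s : ℂ) : ℂ := ∏ x : Fin n × Fin n, (Gammaℝ (s + aa μ x))⁻¹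

theorem term_diff (a : ℂ) : Differentiable ℂ fun s : ℂ => (Gammaℝ (s + a))⁻¹ := by
  have h1 : Differentiable ℂ fun s : ℂ => s + a := differentiable_id.add_const a
  exact differentiable_Gammaℝ_inv.comp h1

theorem JJ_diff (μ : Fin n → ℂ) : Differentiable ℂ (JJ μ) := by
  unfold JJ
  exact Differentiable.fun_finsetProd fun x _ => term_diff _

/-- every `i` has a partner at infinity -/
theorem partner (h : SphericalForm α μ) (j : Fin n) : ∃ i, aa μ (i, j) = 0 := by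
  have h1 : -(starRingEnd ℂ) (μ j) ∈ Multiset.map μ Finset.univ.val := by
    rw [← h.unitary_infty]
    exact Multiset.mem_map.2 ⟨j, Finset.mem_univ_val _, rfl⟩
  obtain ⟨i, _, hi⟩ := Multiset.mem_map.1 h1
  refine ⟨i, ?_⟩
  unfold aa
  simp only
  rw [hi]
  ring

theorem term_zero {a : ℂ} (ha : a = 0) : (Gammaℝ (0 + a))⁻¹ = 0 := by
  rw [ha, add_zero, inv_eq_zero, Gammaℝ_eq_zero_iff]
  exact ⟨0, by simp⟩

/-- the double zero at `0` -/
theorem JJ_zero (h : SphericalForm α μ) (hn : 2 ≤ n) : JJ μ 0 = 0 ∧ deriv (JJ μ) 0 = 0 := by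
  obtain ⟨i0, hi0⟩ := h.partner ⟨0, by omega⟩
  obtain ⟨i1, hi1⟩ := h.partner ⟨1, by omega⟩
  set x0 : Fin n × Fin n := (i0, ⟨0, by omega⟩) with hx0
  set x1 : Fin n × Fin n := (i1, ⟨1, by omega⟩) with hx1
  have hne : x1 ≠ x0 := by
    intro h'
    have := congrArg (fun y : Fin n × Fin n => (y.2 : ℕ)) h'
    simp [hx0, hx1] at this
  set t0 : ℂ → ℂ := fun s => (Gammaℝ (s + aa μ x0))⁻¹ with ht0
  set t1 : ℂ → ℂ := fun s => (Gammaℝ (s + aa μ x1))⁻¹ with ht1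
  set rest : ℂ → ℂ := fun s => ∏ x ∈ (Finset.univ.erase x0).erase x1, (Gammaℝ (s + aa μ x))⁻¹ with hrest
  have e : JJ μ = fun s => t0 s * (t1 s * rest s) := by
    funext s
    unfold JJ
    rw [← Finset.mul_prod_erase Finset.univ _ (Finset.mem_univ x0),
      ← Finset.mul_prod_erase (Finset.univ.erase x0) _ (Finset.mem_erase.2 ⟨hne, Finset.mem_univ x1⟩)]
  have z0 : t0 0 = 0 := term_zero hi0
  have z1 : t1 0 = 0 := term_zero hi1
  have d0 : DifferentiableAt ℂ t0 0 := term_diff _ 0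
  have d1 : DifferentiableAt ℂ t1 0 := term_diff _ 0
  have dr : DifferentiableAt ℂ rest 0 := (Differentiable.fun_finsetProd fun x _ => term_diff _) 0
  refine ⟨by rw [e]; simp only; rw [z0, zero_mul], ?_⟩
  rw [e]
  have h1 := d0.hasDerivAt.mul (d1.hasDerivAt.mul dr.hasDerivAt)
  have h2 : deriv (fun s => t0 s * (t1 s * rest s)) 0 = _ := h1.deriv
  rw [h2]
  simp only [Pi.mul_apply]
  rw [z0, z1]
  ring

/-- `s (s - 1) L(s, φ × φ~)` -/
noncomputable def GX (Ξ : ℂ → ℂ) (μ : Fin n → ℂ) (s : ℂ) : ℂ := Ξ s * JJ μ s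

theorem GX_diff {Ξ : ℂ → ℂ} (hC : TP.Compl Ξ) (μ : Fin n → ℂ) : Differentiable ℂ (GX Ξ μ) :=
  hC.diff.mul (JJ_diff μ)

theorem GX_zero {Ξ : ℂ → ℂ} (hC : TP.Compl Ξ) (h : SphericalForm α μ) (hn : 2 ≤ n) :
    GX Ξ μ 0 = 0 ∧ deriv (GX Ξ μ) 0 = 0 := by
  obtain ⟨h1, h2⟩ := h.JJ_zero hn
  refine ⟨by unfold GX; rw [h1, mul_zero], ?_⟩
  have h3 := (hC.diff 0).hasDerivAt.mul ((JJ_diff μ) 0).hasDerivAt
  have h4 : deriv (GX Ξ μ) 0 = _ := h3.deriv
  rw [h4, h1, h2]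
  ring

theorem GX_eq {Ξ : ℂ → ℂ} (h : SphericalForm α μ) (hΞ : ∀ s : ℂ, 1 < s.re →
    Ξ s = s * (s - 1) * (∏ i, ∏ j, Gammaℝ (s + (μ i + (starRingEnd ℂ) (μ j)))) * exp (logRS α s)) {s : ℂ}
    (hs : 1 < s.re) : GX Ξ μ s = s * (s - 1) * exp (logRS α s) := by
  unfold GX JJ
  rw [hΞ s hs, prod_aa μ (fun a => Gammaℝ (s + a))]
  have h1 : (∏ x : Fin n × Fin n, Gammaℝ (s + aa μ x)) * ∏ x : Fin n × Fin n, (Gammaℝ (s + aa μ x))⁻¹ = 1 := by
    rw [← Finset.prod_mul_distrib]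
    refine Finset.prod_eq_one fun x _ => mul_inv_cancel₀ (Gammaℝ_ne_zero_of_re_pos ?_)
    have h2 := abs_lt.1 (h.aa_re x)
    simp
    linarith
  calc _ = s * (s - 1) * ((∏ x : Fin n × Fin n, Gammaℝ (s + aa μ x)) *
        ∏ x : Fin n × Fin n, (Gammaℝ (s + aa μ x))⁻¹) * exp (logRS α s) := by ring
    _ = _ := by rw [h1, mul_one]

theorem one_le_cond (μ : Fin n → ℂ) : 1 ≤ cond μ := by
  unfold cond
  have h1 : ∏ _i : Fin n, (1 : ℝ) ≤ ∏ i : Fin n, (1 + ‖μ i‖) :=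
    Finset.prod_le_prod (fun i _ => zero_le_one) fun i _ => by
      have := norm_nonneg (μ i)
      linarith
  rwa [Finset.prod_const_one] at h1

theorem aa_norm (μ : Fin n → ℂ) (x : Fin n × Fin n) : 1 + ‖aa μ x‖ ≤ (1 + ‖μ x.1‖) * (1 + ‖μ x.2‖) := by
  unfold aa
  have h1 := norm_add_le (μ x.1) ((starRingEnd ℂ) (μ x.2))
  rw [RCLike.norm_conj] at h1
  have h2 := norm_nonneg (μ x.1)
  have h3 := norm_nonneg (μ x.2)
  nlinarith

theorem prod_cond (μ : Fin n → ℂ) :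
    ∏ x : Fin n × Fin n, ((1 + ‖μ x.1‖) * (1 + ‖μ x.2‖)) = cond μ ^ (2 * n) := by
  rw [Finset.prod_mul_distrib, Fintype.prod_prod_type, Fintype.prod_prod_type]
  simp only
  rw [Finset.prod_comm (s := Finset.univ) (t := Finset.univ) (f := fun (x y : Fin n) => (1 + ‖μ y‖))]
  simp only [Finset.prod_const, Finset.card_univ, Fintype.card_fin]
  rw [Finset.prod_pow]
  unfold cond
  rw [two_mul, pow_add]

/-- the convexity bound in a bounded region -/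
theorem GX_le (n : ℕ) : ∃ A : ℝ, 1 ≤ A ∧ ∀ (α : Nat.Primes → Fin n → ℂ) (μ : Fin n → ℂ), SphericalForm α μ →
    ∀ Ξ : ℂ → ℂ, TP.Compl Ξ → (∀ s : ℂ, 1 < s.re →
    Ξ s = s * (s - 1) * (∏ i, ∏ j, Gammaℝ (s + (μ i + (starRingEnd ℂ) (μ j)))) * exp (logRS α s)) →
    ∀ s : ℂ, -(1 / 2) ≤ s.re → ‖s‖ ≤ 9 → ‖GX Ξ μ s‖ ≤ A * cond μ ^ (4 * n) := by
  obtain ⟨B, hB0, hB⟩ := logRS_le n
  refine ⟨13 * 12 * 3 ^ (n * n) * Real.exp B, ?_, fun α μ h Ξ hC hΞ s hs1 hs2 => ?_⟩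
  · have h1 : (1 : ℝ) ≤ 3 ^ (n * n) := one_le_pow₀ (by norm_num)
    have h2 : 1 ≤ Real.exp B := Real.one_le_exp hB0
    nlinarith [mul_le_mul h1 h2 zero_le_one (by positivity)]
  have h1 := h.mono hC hΞ (s := s) (by linarith)
  have hs4 : 5 / 2 ≤ (s + 4).re := by simp; linarith
  rw [hΞ (s + 4) (by linarith), prod_aa μ (fun a => Gammaℝ (s + 4 + a)), norm_mul, norm_mul, norm_mul] at h1
  unfold GX
  rw [norm_mul]
  have e1 : ‖s + 4‖ ≤ 13 := by
    refine (norm_add_le _ _).trans ?_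
    have : ‖(4 : ℂ)‖ = 4 := by simp
    rw [this]
    linarith
  have e2 : ‖s + 4 - 1‖ ≤ 12 := by
    rw [show s + 4 - 1 = s + 3 by ring]
    refine (norm_add_le _ _).trans ?_
    have : ‖(3 : ℂ)‖ = 3 := by simp
    rw [this]
    linarith
  have e4 : ‖exp (logRS α (s + 4))‖ ≤ Real.exp B := by
    rw [norm_exp]
    refine Real.exp_le_exp.2 ?_
    have h2 := re_le_norm (logRS α (s + 4))
    have h3 := hB α μ h (s + 4) hs4
    linarith
  have e3 : ‖∏ x : Fin n × Fin n, Gammaℝ (s + 4 + aa μ x)‖ * ‖JJ μ s‖ ≤ 3 ^ (n * n) * cond μ ^ (4 * n) := by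
    unfold JJ
    rw [norm_prod, norm_prod, ← Finset.prod_mul_distrib]
    have h3 : ∀ x : Fin n × Fin n, ‖Gammaℝ (s + 4 + aa μ x)‖ * ‖(Gammaℝ (s + aa μ x))⁻¹‖ ≤
        3 * ((1 + ‖μ x.1‖) * (1 + ‖μ x.2‖)) ^ 2 := by
      intro x
      have h2 := abs_lt.1 (h.aa_re x)
      set z := s + aa μ x with hz
      have hzre : -(3 / 2) < z.re := by rw [hz]; simp; linarith
      have h4 : s + 4 + aa μ x = z + 4 := by rw [hz]; ring
      rw [h4, Gammaℝ_add_four (z := z) (by linarith), norm_mul, norm_div, norm_mul, norm_inv, norm_pow]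
      have h8 : ‖(2 * (Real.pi : ℂ))‖ = 2 * Real.pi := by
        rw [show (2 * (Real.pi : ℂ)) = ((2 * Real.pi : ℝ) : ℂ) by push_cast; ring, norm_real,
          Real.norm_of_nonneg (by positivity)]
      have h10 : 0 < ‖Gammaℝ (z + 4)‖ := norm_pos_iff.2 (Gammaℝ_ne_zero_of_re_pos (by simp; linarith))
      rw [h8]
      have h11 : ‖Gammaℝ (z + 4)‖ * (‖z‖ * ‖z + 2‖ / (2 * Real.pi) ^ 2 * ‖Gammaℝ (z + 4)‖⁻¹) =
          ‖z‖ * ‖z + 2‖ / (2 * Real.pi) ^ 2 := by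
        field_simp
      rw [h11]
      have h12 := aa_norm μ x
      have h13 : ‖z‖ ≤ 9 + ‖aa μ x‖ := (norm_add_le _ _).trans (by linarith)
      have h14 : ‖z + 2‖ ≤ 11 + ‖aa μ x‖ := by
        refine (norm_add_le _ _).trans ?_
        have : ‖(2 : ℂ)‖ = 2 := by simp
        rw [this]
        linarith
      have h15 : (39 : ℝ) ≤ (2 * Real.pi) ^ 2 := by nlinarith [Real.pi_gt_d2]
      set b := 1 + ‖aa μ x‖ with hb
      set d := (1 + ‖μ x.1‖) * (1 + ‖μ x.2‖) with hd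
      have hb1 : 1 ≤ b := by have := norm_nonneg (aa μ x); linarith
      rw [div_le_iff₀ (by positivity)]
      have h16 : ‖z‖ * ‖z + 2‖ ≤ (9 * b) * (11 * b) :=
        mul_le_mul (by linarith) (by linarith) (norm_nonneg _) (by positivity)
      have h17 : b * b ≤ d ^ 2 := by nlinarith
      have h18 : 0 ≤ d ^ 2 := sq_nonneg _
      nlinarith
    calc _ ≤ ∏ x : Fin n × Fin n, (3 * ((1 + ‖μ x.1‖) * (1 + ‖μ x.2‖)) ^ 2) :=
          Finset.prod_le_prod (fun x _ => by positivity) fun x _ => h3 x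
      _ = 3 ^ (n * n) * cond μ ^ (4 * n) := by
          rw [Finset.prod_mul_distrib, Finset.prod_const, Finset.prod_pow, prod_cond, Finset.card_univ,
            Fintype.card_prod, Fintype.card_fin, ← pow_mul]
          congr 2
          ring
  have hJ0 : 0 ≤ ‖JJ μ s‖ := norm_nonneg _
  have hc0 : 0 ≤ cond μ ^ (4 * n) := pow_nonneg (by linarith [one_le_cond μ]) _
  calc ‖Ξ s‖ * ‖JJ μ s‖ ≤ (‖s + 4‖ * ‖s + 4 - 1‖ * ‖∏ x : Fin n × Fin n, Gammaℝ (s + 4 + aa μ x)‖ *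
        ‖exp (logRS α (s + 4))‖) * ‖JJ μ s‖ := by gcongr
    _ = (‖s + 4‖ * ‖s + 4 - 1‖) * (‖∏ x : Fin n × Fin n, Gammaℝ (s + 4 + aa μ x)‖ * ‖JJ μ s‖) *
        ‖exp (logRS α (s + 4))‖ := by ring
    _ ≤ (13 * 12) * (3 ^ (n * n) * cond μ ^ (4 * n)) * Real.exp B := by
        gcongr
    _ = _ := by ring

/-- `L(s, φ × φ~) / ζ(s)` -/
noncomputable def FF (Ξ : ℂ → ℂ) (μ : Fin n → ℂ) (s : ℂ) : ℂ := dslope (GX Ξ μ) 0 s / riemannZeta₁ s

theorem FF_diff {Ξ : ℂ → ℂ} (hC : TP.Compl Ξ) (μ : Fin n → ℂ) :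
    DifferentiableOn ℂ (FF Ξ μ) (closedBall 4 (17 / 4)) := by
  have h1 : Differentiable ℂ (dslope (GX Ξ μ) 0) := by
    rw [← differentiableOn_univ, Complex.differentiableOn_dslope Filter.univ_mem, differentiableOn_univ]
    exact GX_diff hC μ
  exact h1.differentiableOn.div differentiable_riemannZeta₁.differentiableOn fun s hs => z1_ne hs

theorem FF_zero {Ξ : ℂ → ℂ} (hC : TP.Compl Ξ) (h : SphericalForm α μ) (hn : 2 ≤ n) : FF Ξ μ 0 = 0 := by
  unfold FF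
  rw [dslope_same, (h.GX_zero hC hn).2, zero_div]

theorem FF_eq {Ξ : ℂ → ℂ} (hC : TP.Compl Ξ) (h : SphericalForm α μ) (hn : 2 ≤ n) (hΞ : ∀ s : ℂ, 1 < s.re →
    Ξ s = s * (s - 1) * (∏ i, ∏ j, Gammaℝ (s + (μ i + (starRingEnd ℂ) (μ j)))) * exp (logRS α s)) {s : ℂ}
    (hs : 1 < s.re) : FF Ξ μ s * riemannZeta s = exp (logRS α s) := by
  have hs0 : s ≠ 0 := by
    rintro rfl
    simp at hs
    linarith
  have hs1 : s ≠ 1 := by
    rintro rfl
    simp at hs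
  have hz : riemannZeta s ≠ 0 := riemannZeta_ne_zero_of_one_le_re hs.le
  have hs1' : s - 1 ≠ 0 := sub_ne_zero.2 hs1
  have hz1 : riemannZeta₁ s ≠ 0 := by
    intro h1
    rw [riemannZeta_eq_inv_sub_mul hs1, h1, mul_zero] at hz
    exact hz rfl
  unfold FF
  rw [dslope_of_ne _ hs0, slope_def_field, (h.GX_zero hC hn).1, h.GX_eq hΞ hs, riemannZeta_eq_inv_sub_mul hs1]
  field_simp
  ring

theorem FF_le (n : ℕ) : ∃ A : ℝ, 1 ≤ A ∧ ∀ (α : Nat.Primes → Fin n → ℂ) (μ : Fin n → ℂ), SphericalForm α μ →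
    2 ≤ n → ∀ Ξ : ℂ → ℂ, TP.Compl Ξ → (∀ s : ℂ, 1 < s.re →
    Ξ s = s * (s - 1) * (∏ i, ∏ j, Gammaℝ (s + (μ i + (starRingEnd ℂ) (μ j)))) * exp (logRS α s)) →
    ∀ s ∈ closedBall (4 : ℂ) (17 / 4), ‖FF Ξ μ s‖ ≤ A * cond μ ^ (4 * n) := by
  obtain ⟨A, hA1, hA⟩ := GX_le n
  obtain ⟨c, hc0, hc⟩ := z1_low
  refine ⟨4 * A / c + 1, by have : 0 ≤ 4 * A / c := by positivity
                            linarith, fun α μ h hn Ξ hC hΞ s hs => ?_⟩
  have hA' := hA α μ h Ξ hC hΞ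
  have hcond := one_le_cond μ
  have hcn : 1 ≤ cond μ ^ (4 * n) := one_le_pow₀ hcond
  set W := A * cond μ ^ (4 * n) with hW
  have hW1 : 1 ≤ W := by nlinarith
  have h1 : ‖dslope (GX Ξ μ) 0 s‖ ≤ 4 * W := by
    rcases lt_or_ge ‖s‖ (1 / 2) with hsn | hsn
    · have hmaps : Set.MapsTo (GX Ξ μ) (ball 0 (1 / 2)) (closedBall (GX Ξ μ 0) (2 * W)) := by
        intro z hz
        rw [(h.GX_zero hC hn).1]
        rw [mem_ball_zero_iff] at hz
        rw [mem_closedBall_zero_iff]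
        have h2 := abs_re_le_norm z
        have h3 := neg_abs_le z.re
        have h4 := hA' z (by linarith) (by linarith)
        linarith
      have h2 := Complex.norm_dslope_le_div_of_mapsTo_ball (GX_diff hC μ).differentiableOn hmaps
        (z := s) (by rwa [mem_ball_zero_iff])
      refine h2.trans (le_of_eq ?_)
      ring
    · have hs0 : s ≠ 0 := by
        rintro rfl
        rw [norm_zero] at hsn
        linarith
      rw [dslope_of_ne _ hs0, slope_def_field, (h.GX_zero hC hn).1, sub_zero, sub_zero, norm_div]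
      rw [div_le_iff₀ (by linarith)]
      rw [mem_closedBall, dist_eq_norm] at hs
      have h2 := abs_re_le_norm (s - 4)
      have h3 := neg_abs_le (s - 4).re
      simp at h3
      simp at h2
      have h5 : ‖s‖ ≤ 17 / 4 + 4 := by
        calc ‖s‖ = ‖(s - 4) + 4‖ := by rw [sub_add_cancel]
          _ ≤ ‖s - 4‖ + ‖(4 : ℂ)‖ := norm_add_le _ _
          _ ≤ _ := by
            have : ‖(4 : ℂ)‖ = 4 := by simp
            rw [this]
            linarith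
      have h4 := hA' s (by linarith) (by linarith)
      nlinarith
  unfold FF
  rw [norm_div, div_le_iff₀ (norm_pos_iff.2 (z1_ne hs))]
  have h2 := hc s hs
  calc ‖dslope (GX Ξ μ) 0 s‖ ≤ 4 * W := h1
    _ = (4 * A / c) * cond μ ^ (4 * n) * c := by rw [hW]; field_simp
    _ ≤ (4 * A / c + 1) * cond μ ^ (4 * n) * ‖riemannZeta₁ s‖ := by
        gcongr
        linarith

end SphericalForm

end Pool.Agent.H63.T3
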